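import Mathlib

set_option autoImplicit false

namespace Pool.Agent.Helper826.Barely

theorem exists_central_aux {Q : Type*} [Group Q] [Finite Q] {p : ℕ} [Fact p.Prime]
    (hQ : IsPGroup p Q) (M : Subgroup Q) [M.Normal] (hM : M ≠ ⊥) :
    ∃ z ∈ M, z ≠ 1 ∧ ∀ a : Q, a * z * a⁻¹ = z := by
  have hnt : Nontrivial M := (Subgroup.nontrivial_iff_ne_bot M).2 hM
  obtain ⟨n, hn, hcard⟩ := (hQ.to_subgroup M).nontrivial_iff_card.1 hnt
  have hdvd : p ∣ Nat.card M := by
    rw [hcard]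
    exact dvd_pow_self p hn.ne'
  have hC : IsPGroup p (ConjAct Q) := hQ.of_equiv ConjAct.toConjAct
  obtain ⟨b, hb, hb1⟩ := hC.exists_fixed_point_of_prime_dvd_card_of_fixed_point M hdvd
    (a := (1 : M)) (by
      intro g
      exact smul_one g)
  refine ⟨b, b.2, ?_, ?_⟩
  · intro h
    apply hb1
    apply Subtype.ext
    exact h.symm
  · intro a
    have h1 := hb (ConjAct.toConjAct a)
    have h2 := congrArg (fun x : M => (x : Q)) h1
    simp only [ConjAct.Subgroup.val_conj_smul, ConjAct.toConjAct_smul] at h2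
    exact h2

/-- In a `p`-group, a subgroup `N` of `P`, normalised by `P`, and not contained in a normal
subgroup `K` of finite index of `P`, has an element outside `K` that is central modulo `K`. -/
theorem exists_central {G : Type*} [Group G] {p : ℕ} [Fact p.Prime] (hp : IsPGroup p G)
    (P N K : Subgroup G) (hKP : K ≤ P) (hNP : N ≤ P)
    (hKn : ∀ a ∈ P, ∀ b ∈ K, a⁻¹ * b * a ∈ K) (hNn : ∀ a ∈ P, ∀ b ∈ N, a⁻¹ * b * a ∈ N)
    (hfi : K.relIndex P ≠ 0) (hNK : ¬ N ≤ K) :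
    ∃ z ∈ N, z ∉ K ∧ ∀ a ∈ P, a⁻¹ * z * a * z⁻¹ ∈ K := by
  have hn1 : (K.subgroupOf P).Normal := by
    constructor
    intro n hn g
    rw [Subgroup.mem_subgroupOf] at hn ⊢
    have := hKn (g : G)⁻¹ (P.inv_mem g.2) n hn
    simpa using this
  have hn2 : (N.subgroupOf P).Normal := by
    constructor
    intro n hn g
    rw [Subgroup.mem_subgroupOf] at hn ⊢
    have := hNn (g : G)⁻¹ (P.inv_mem g.2) n hn
    simpa using this
  have hfin : Finite (P ⧸ K.subgroupOf P) := by
    have : (K.subgroupOf P).index ≠ 0 := hfi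
    haveI : (K.subgroupOf P).FiniteIndex := ⟨this⟩
    infer_instance
  have hQ : IsPGroup p (P ⧸ K.subgroupOf P) := (hp.to_subgroup P).to_quotient _
  have hn3 : ((N.subgroupOf P).map (QuotientGroup.mk' (K.subgroupOf P))).Normal :=
    hn2.map _ (QuotientGroup.mk'_surjective _)
  have hne : (N.subgroupOf P).map (QuotientGroup.mk' (K.subgroupOf P)) ≠ ⊥ := by
    intro h
    apply hNK
    intro x hx
    have h1 : (QuotientGroup.mk' (K.subgroupOf P)) ⟨x, hNP hx⟩ ∈
        (N.subgroupOf P).map (QuotientGroup.mk' (K.subgroupOf P)) :=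
      Subgroup.mem_map_of_mem _ (by rw [Subgroup.mem_subgroupOf]; exact hx)
    rw [h, Subgroup.mem_bot, QuotientGroup.mk'_apply, QuotientGroup.eq_one_iff,
      Subgroup.mem_subgroupOf] at h1
    exact h1
  obtain ⟨z, hz, hz1, hzc⟩ := exists_central_aux hQ _ hne
  obtain ⟨w, hw, rfl⟩ := Subgroup.mem_map.1 hz
  refine ⟨w, Subgroup.mem_subgroupOf.1 hw, ?_, ?_⟩
  · intro hK
    apply hz1
    rw [QuotientGroup.mk'_apply, QuotientGroup.eq_one_iff, Subgroup.mem_subgroupOf]
    exact hK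
  · intro a ha
    have h1 := hzc (QuotientGroup.mk' (K.subgroupOf P) ⟨a, ha⟩⁻¹)
    rw [← map_inv, ← map_mul, ← map_mul] at h1
    have h2 : (QuotientGroup.mk' (K.subgroupOf P)) ((⟨a, ha⟩⁻¹ * w * (⟨a, ha⟩⁻¹)⁻¹) * w⁻¹) = 1 := by
      rw [map_mul, h1, ← map_mul, mul_inv_cancel, map_one]
    rw [QuotientGroup.mk'_apply, QuotientGroup.eq_one_iff, Subgroup.mem_subgroupOf] at h2
    simpa using h2


end Pool.Agent.Helper826.Barely
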