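import Mathlib

/-!
Chains of subgroups `S 0 ≤ S 1 ≤ ...` of a `p`-group with cyclic factors of order `p`, and the
exponent saving lemma for the rigid stabilisers.
-/

set_option autoImplicit false

namespace Pool.Agent.Helper826.Barely

variable {G : Type*} [Group G]

/-- A chain of subgroups with union `G`, each normal in the next one, with cyclic factors of
order dividing `p`. -/
structure IsChain' (p : ℕ) (S : ℕ → Subgroup G) : Prop where
  step : ∀ k, S k ≤ S (k + 1)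
  norm : ∀ k, ∀ a ∈ S (k + 1), ∀ b ∈ S k, a⁻¹ * b * a ∈ S k
  gen : ∀ k, ∀ v ∈ S (k + 1), v ∉ S k → ∀ b ∈ S (k + 1), ∃ i : ℕ, ∃ c ∈ S k, b = v ^ i * c
  pow : ∀ k, ∀ v ∈ S (k + 1), v ^ p ∈ S k
  comm : ∀ k, ∀ a ∈ S (k + 1), ∀ b ∈ S (k + 1), a⁻¹ * b * a * b⁻¹ ∈ S k
  union : ∀ g, ∃ k, g ∈ S k

variable {p : ℕ} {S : ℕ → Subgroup G}

namespace IsChain'

theorem mono (h : IsChain' p S) : Monotone S := monotone_nat_of_le_succ h.step

theorem const (h : IsChain' p S) (k e : ℕ) : ∀ v ∈ S (k + 1 + e), ∀ b ∈ S (k + 1 + e),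
    b⁻¹ * v ^ (p ^ e) * b ∈ S (k + 1) ∧ b⁻¹ * v ^ (p ^ e) * b * (v ^ (p ^ e))⁻¹ ∈ S k := by
  induction e with
  | zero =>
    intro v hv b hb
    simp only [add_zero, pow_zero, pow_one] at hv hb ⊢
    exact ⟨mul_mem (mul_mem (inv_mem hb) hv) hb, h.comm k b hb v hv⟩
  | succ e ih =>
    intro v hv b hb
    by_cases hvj : v ∈ S (k + 1 + e)
    · have key : ∀ b ∈ S (k + 1 + (e + 1)), b⁻¹ * v ^ (p ^ (e + 1)) * b ∈ S k := by
        intro b hb
        have h1 : b⁻¹ * v * b ∈ S (k + 1 + e) := h.norm (k + 1 + e) b hb v hvj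
        have h2 := (ih _ h1 1 (one_mem _)).1
        simp only [inv_one, one_mul, mul_one] at h2
        have h3 := h.pow k _ h2
        rw [← pow_mul, ← pow_succ] at h3
        have h4 : (b⁻¹ * v * b) ^ (p ^ (e + 1)) = b⁻¹ * v ^ (p ^ (e + 1)) * b := by
          have := conj_pow (a := b⁻¹) (b := v) (i := p ^ (e + 1))
          simpa using this
        rwa [h4] at h3
      have h5 := key b hb
      have h6 := key 1 (one_mem _)
      simp only [inv_one, one_mul, mul_one] at h6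
      exact ⟨h.step k h5, mul_mem h5 (inv_mem h6)⟩
    · obtain ⟨i, c, hc, rfl⟩ := h.gen (k + 1 + e) v hv hvj b hb
      have hvp : v ^ p ∈ S (k + 1 + e) := h.pow _ v hv
      have h1 := ih _ hvp c hc
      have h2 : (v ^ p) ^ (p ^ e) = v ^ (p ^ (e + 1)) := by
        rw [← pow_mul, pow_succ, mul_comm]
      rw [h2] at h1
      have h3 : (v ^ i * c)⁻¹ * v ^ (p ^ (e + 1)) * (v ^ i * c)
          = c⁻¹ * v ^ (p ^ (e + 1)) * c := by
        have hcomm : v ^ (p ^ (e + 1)) * v ^ i = v ^ i * v ^ (p ^ (e + 1)) :=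
          ((Commute.refl v).pow_pow _ _).eq
        calc (v ^ i * c)⁻¹ * v ^ (p ^ (e + 1)) * (v ^ i * c)
            = c⁻¹ * (v ^ i)⁻¹ * (v ^ (p ^ (e + 1)) * v ^ i) * c := by group
          _ = c⁻¹ * (v ^ i)⁻¹ * (v ^ i * v ^ (p ^ (e + 1))) * c := by rw [hcomm]
          _ = c⁻¹ * v ^ (p ^ (e + 1)) * c := by group
      rw [h3]
      exact h1

end IsChain'

/-- Elements of `G` all of whose `S N`-conjugates lie in `S j`. -/
def K (S : ℕ → Subgroup G) (N j : ℕ) : Subgroup G where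
  carrier := {u | ∀ a ∈ S N, a⁻¹ * u * a ∈ S j}
  one_mem' := by
    intro a _
    simp
  mul_mem' := by
    intro u v hu hv a ha
    have h1 := mul_mem (hu a ha) (hv a ha)
    have h2 : a⁻¹ * u * a * (a⁻¹ * v * a) = a⁻¹ * (u * v) * a := by group
    rwa [h2] at h1
  inv_mem' := by
    intro u hu a ha
    have h1 := inv_mem (hu a ha)
    have h2 : (a⁻¹ * u * a)⁻¹ = a⁻¹ * u⁻¹ * a := by group
    rwa [h2] at h1

theorem mem_K {S : ℕ → Subgroup G} {N j : ℕ} {u : G} :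
    u ∈ K S N j ↔ ∀ a ∈ S N, a⁻¹ * u * a ∈ S j := Iff.rfl

/-- The rigid stabiliser: elements `g` all of whose conjugates by elements outside `S N` lie in
`S 0`. -/
def R (S : ℕ → Subgroup G) (N : ℕ) : Subgroup G where
  carrier := {g | ∀ b, b ∉ S N → b⁻¹ * g * b ∈ S 0}
  one_mem' := by
    intro a _
    simp
  mul_mem' := by
    intro u v hu hv a ha
    have h1 := mul_mem (hu a ha) (hv a ha)
    have h2 : a⁻¹ * u * a * (a⁻¹ * v * a) = a⁻¹ * (u * v) * a := by group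
    rwa [h2] at h1
  inv_mem' := by
    intro u hu a ha
    have h1 := inv_mem (hu a ha)
    have h2 : (a⁻¹ * u * a)⁻¹ = a⁻¹ * u⁻¹ * a := by group
    rwa [h2] at h1

theorem mem_R {S : ℕ → Subgroup G} {N : ℕ} {g : G} :
    g ∈ R S N ↔ ∀ b, b ∉ S N → b⁻¹ * g * b ∈ S 0 := Iff.rfl

namespace IsChain'

theorem R_le (h : IsChain' p S) (N : ℕ) : R S N ≤ S N := by
  intro g hg
  by_contra hgN
  have h1 := hg g hgN
  have h2 : g⁻¹ * g * g = g := by group
  rw [h2] at h1
  exact hgN (h.mono (Nat.zero_le N) h1)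

theorem R_mono (h : IsChain' p S) : Monotone (R S) := by
  intro M N hMN g hg b hb
  exact hg b (fun hb' => hb (h.mono hMN hb'))

theorem R_conj (_h : IsChain' p S) {N : ℕ} {s g : G} (hs : s ∈ S N) (hg : g ∈ R S N) :
    s * g * s⁻¹ ∈ R S N := by
  intro b hb
  have h1 : s⁻¹ * b ∉ S N := by
    intro h2
    apply hb
    have := mul_mem hs h2
    simpa using this
  have h2 := hg _ h1
  have h3 : (s⁻¹ * b)⁻¹ * g * (s⁻¹ * b) = b⁻¹ * (s * g * s⁻¹) * b := by group
  rwa [h3] at h2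

theorem K_self (_h : IsChain' p S) {N : ℕ} {s : G} (hs : s ∈ S N) : s ∈ K S N N := by
  intro a ha
  exact mul_mem (mul_mem (inv_mem ha) hs) ha

theorem K_pow (h : IsChain' p S) {N j : ℕ} {u : G} (hu : u ∈ K S N (j + 1)) :
    u ^ p ∈ K S N j := by
  intro a ha
  have h1 := h.pow j _ (hu a ha)
  have h4 : (a⁻¹ * u * a) ^ p = a⁻¹ * u ^ p * a := by
    have := conj_pow (a := a⁻¹) (b := u) (i := p)
    simpa using this
  rwa [h4] at h1

/-- `(s g)^n = s^n g'` with `g'` in the rigid stabiliser. -/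
theorem mul_pow_R (h : IsChain' p S) {N : ℕ} {s g : G} (hs : s ∈ S N) (hg : g ∈ R S N) (n : ℕ) :
    ∃ g' ∈ R S N, (s * g) ^ n = s ^ n * g' := by
  induction n with
  | zero => exact ⟨1, one_mem _, by simp⟩
  | succ n ih =>
    obtain ⟨g', hg', hn⟩ := ih
    refine ⟨s⁻¹ * g' * s * g, ?_, ?_⟩
    · have := h.R_conj (inv_mem hs) hg'
      rw [inv_inv] at this
      exact mul_mem this hg
    · rw [pow_succ, hn, pow_succ]
      group

/-- `W N j c`: modulo the rigid stabiliser, `p^c`-th powers of elements of `S N` fix all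
blocks of level `j` inside the block of level `N`. -/
def W (p : ℕ) (S : ℕ → Subgroup G) (N j c : ℕ) : Prop :=
  ∀ s ∈ S N, ∃ g ∈ R S N, s ^ (p ^ c) * g ∈ K S N j

theorem W_self (h : IsChain' p S) (N : ℕ) : W p S N N 0 := by
  intro s hs
  exact ⟨1, one_mem _, by simpa using h.K_self hs⟩

theorem W_step (h : IsChain' p S) {N j c : ℕ} (hW : W p S N (j + 1) c) : W p S N j (c + 1) := by
  intro s hs
  obtain ⟨g, hg, hk⟩ := hW s hs
  have h1 := h.K_pow hk
  obtain ⟨g', hg', h2⟩ := h.mul_pow_R (pow_mem hs (p ^ c)) hg p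
  refine ⟨g', hg', ?_⟩
  rw [h2, ← pow_mul, ← pow_succ] at h1
  exact h1

theorem W_steps (h : IsChain' p S) {N j c : ℕ} (hW : W p S N j c) : W p S N 0 (c + j) := by
  induction j generalizing c with
  | zero => simpa using hW
  | succ j ih =>
    have := ih (h.W_step hW)
    rwa [Nat.add_right_comm, Nat.add_assoc] at this

/-- Level `k` is good with bound `M`. -/
def Good (S : ℕ → Subgroup G) (k M : ℕ) : Prop :=
  ∃ z ∈ R S M, z ∉ S k ∧ ∀ a ∈ S M, a⁻¹ * z * a ∈ S (k + 1) ∧ a⁻¹ * z * a * z⁻¹ ∈ S k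

theorem Good.lt (h : IsChain' p S) {k M : ℕ} (hg : Good S k M) : k + 1 ≤ M := by
  obtain ⟨z, hz, hzk, -⟩ := hg
  by_contra hlt
  exact hzk (h.mono (by omega) (h.R_le M hz))

end IsChain'

end Pool.Agent.Helper826.Barely
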