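import Mathlib

set_option autoImplicit false

namespace Pool.Agent.Helper826.Barely

theorem mcl_sup {F : Type*} [Group F] (Q : Subgroup F) (hQ : IsCoatom Q) (hn : Q.Normal) (g : F)
    (hg : g ∉ Q) (y : F) : ∃ q ∈ Q, ∃ n : ℤ, y = q * g ^ n := by
  have h1 : Q ⊔ Subgroup.zpowers g = ⊤ := by
    refine hQ.2 _ (lt_of_le_of_ne le_sup_left fun he => hg ?_)
    rw [he]
    exact Subgroup.mem_sup_right (Subgroup.mem_zpowers g)
  have h2 : y ∈ Q ⊔ Subgroup.zpowers g := by rw [h1]; trivial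
  obtain ⟨q, hq, z, hz, hqz⟩ := Subgroup.mem_sup_of_normal_left.1 h2
  obtain ⟨n, rfl⟩ := Subgroup.mem_zpowers_iff.1 hz
  exact ⟨q, hq, n, hqz.symm⟩

theorem mcl_comm {F : Type*} [Group F] (Q : Subgroup F) (hQ : IsCoatom Q) (hn : Q.Normal)
    (x y : F) : x * y * x⁻¹ * y⁻¹ ∈ Q := by
  by_cases hx : x ∈ Q
  · have h1 : x * y * x⁻¹ * y⁻¹ = x * (y * x⁻¹ * y⁻¹) := by group
    rw [h1]
    exact Q.mul_mem hx (hn.conj_mem _ (Q.inv_mem hx) y)
  · obtain ⟨q, hq, n, rfl⟩ := mcl_sup Q hQ hn x hx y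
    have h1 : x * (q * x ^ n) * x⁻¹ * (q * x ^ n)⁻¹ = (x * q * x⁻¹) * q⁻¹ := by group
    rw [h1]
    exact Q.mul_mem (hn.conj_mem _ hq x) (Q.inv_mem hq)

theorem mcl_fin {G : Type*} [Group G] (S : Set G) (x : G) (hx : x ∈ Subgroup.closure S) :
    ∃ T : Finset G, (T : Set G) ⊆ S ∧ x ∈ Subgroup.closure (T : Set G) := by
  classical
  induction hx using Subgroup.closure_induction with
  | mem x hx => exact ⟨{x}, by simpa using hx, Subgroup.subset_closure (by simp)⟩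
  | one => exact ⟨∅, by simp, Subgroup.one_mem _⟩
  | mul x y _ _ ihx ihy =>
    obtain ⟨T, hT, hxT⟩ := ihx
    obtain ⟨U, hU, hyU⟩ := ihy
    refine ⟨T ∪ U, by simp [hT, hU], Subgroup.mul_mem _ ?_ ?_⟩
    · exact Subgroup.closure_mono (by simp) hxT
    · exact Subgroup.closure_mono (by simp) hyU
  | inv x _ ih =>
    obtain ⟨T, hT, hxT⟩ := ih
    exact ⟨T, hT, Subgroup.inv_mem _ hxT⟩

theorem mcl_main {G : Type*} [Group G] {p : ℕ} [Fact p.Prime] (hp : IsPGroup p G)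
    (hlf : ∀ A : Finset G, Finite (Subgroup.closure (A : Set G)))
    (M : Subgroup G) (hM : IsCoatom M) (x y : G) : x * y * x⁻¹ * y⁻¹ ∈ M := by
  classical
  by_contra hc
  obtain ⟨c, hcdef⟩ : ∃ c, c = x * y * x⁻¹ * y⁻¹ := ⟨_, rfl⟩
  rw [← hcdef] at hc
  have htop : Subgroup.closure ((M : Set G) ∪ {c}) = ⊤ := by
    refine hM.2 _ (lt_of_le_of_ne ?_ fun he => hc ?_)
    · intro m hm
      exact Subgroup.subset_closure (Or.inl hm)
    · rw [he]
      exact Subgroup.subset_closure (Or.inr rfl)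
  obtain ⟨T, hT, hxT⟩ := mcl_fin _ x (show x ∈ Subgroup.closure ((M : Set G) ∪ {c}) by
    rw [htop]; trivial)
  obtain ⟨U, hU, hyU⟩ := mcl_fin _ y (show y ∈ Subgroup.closure ((M : Set G) ∪ {c}) by
    rw [htop]; trivial)
  obtain ⟨A, hA⟩ : ∃ A : Finset G, A = (T ∪ U).filter (· ∈ M) := ⟨_, rfl⟩
  have hAM : (A : Set G) ⊆ M := by
    intro a ha
    rw [hA] at ha
    exact (Finset.mem_filter.1 (Finset.mem_coe.1 ha)).2
  obtain ⟨F, hF⟩ : ∃ F : Subgroup G, F = Subgroup.closure ((insert c A : Finset G) : Set G) :=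
    ⟨_, rfl⟩
  have hsub : ∀ z ∈ T ∪ U, z ∈ (insert c A : Finset G) := by
    intro z hz
    rw [Finset.mem_insert, hA, Finset.mem_filter]
    have hz' : z ∈ (M : Set G) ∪ {c} := by
      rcases Finset.mem_union.1 hz with h | h
      · exact hT h
      · exact hU h
    rcases hz' with h | h
    · exact Or.inr ⟨hz, h⟩
    · exact Or.inl h
  have hxF : x ∈ F := by
    rw [hF]
    exact Subgroup.closure_mono (fun z hz => hsub z (Finset.mem_union_left _ hz)) hxT
  have hyF : y ∈ F := by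
    rw [hF]
    exact Subgroup.closure_mono (fun z hz => hsub z (Finset.mem_union_right _ hz)) hyU
  have hcF : c ∈ F := by
    rw [hF]
    exact Subgroup.subset_closure (by simp)
  have hfin : Finite F := by rw [hF]; exact hlf _
  have hpF : IsPGroup p F := hp.to_subgroup F
  have hnil : Group.IsNilpotent F := hpF.isNilpotent
  have hAF : Subgroup.closure (A : Set G) ≤ F := by
    rw [hF]
    exact Subgroup.closure_mono (by simp)
  by_cases hH : (Subgroup.closure (A : Set G)).subgroupOf F = ⊤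
  · rw [Subgroup.subgroupOf_eq_top] at hH
    exact hc ((Subgroup.closure_le M).2 hAM (hH hcF))
  · obtain ⟨Q, hQ, hQle⟩ := (eq_top_or_exists_le_coatom
      ((Subgroup.closure (A : Set G)).subgroupOf F)).resolve_left hH
    have hQn : Q.Normal :=
      Subgroup.NormalizerCondition.normal_of_coatom Q (Group.normalizerCondition_of_isNilpotent (G := F)) hQ
    have hcomm := mcl_comm Q hQ hQn ⟨x, hxF⟩ ⟨y, hyF⟩
    have hcomm' : (⟨c, hcF⟩ : F) ∈ Q := by
      have : (⟨c, hcF⟩ : F) = (⟨x, hxF⟩ : F) * (⟨y, hyF⟩ : F) * (⟨x, hxF⟩ : F)⁻¹ * (⟨y, hyF⟩ : F)⁻¹ := by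
        apply Subtype.ext
        exact hcdef
      rw [this]
      exact hcomm
    apply hQ.1
    rw [eq_top_iff]
    have hFQ : F ≤ Q.map F.subtype := by
      conv_lhs => rw [hF]
      rw [Subgroup.closure_le]
      intro z hz
      rw [Finset.mem_coe, Finset.mem_insert] at hz
      rcases hz with rfl | hz
      · exact ⟨⟨z, hcF⟩, hcomm', rfl⟩
      · have hzA : z ∈ Subgroup.closure (A : Set G) := Subgroup.subset_closure hz
        exact ⟨⟨z, hAF hzA⟩, hQle (Subgroup.mem_subgroupOf.2 hzA), rfl⟩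
    rintro ⟨f, hf⟩ -
    obtain ⟨q, hq, hqf⟩ := hFQ hf
    have : q = ⟨f, hf⟩ := Subtype.ext hqf
    rw [← this]
    exact hq

/-- McLain: a maximal subgroup of a locally finite `p`-group is normal of finite index. -/
theorem coatom_normal_finiteIndex {G : Type*} [Group G] {p : ℕ} [Fact p.Prime] (hp : IsPGroup p G)
    (hlf : ∀ A : Finset G, Finite (Subgroup.closure (A : Set G)))
    (M : Subgroup G) (hM : IsCoatom M) : M.Normal ∧ M.FiniteIndex := by
  have hn : M.Normal := by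
    refine ⟨fun m hm g => ?_⟩
    have h1 : g * m * g⁻¹ = g * m * g⁻¹ * m⁻¹ * m := by
      group
    rw [h1]
    exact M.mul_mem (mcl_main hp hlf M hM g m) hm
  refine ⟨hn, ?_⟩
  obtain ⟨g, hg⟩ : ∃ g, g ∉ M := by
    by_contra hne
    push Not at hne
    exact hM.1 ((Subgroup.eq_top_iff' M).2 hne)
  obtain ⟨k, hk⟩ := hp g
  have hpk : 0 < p ^ k := pow_pos (Fact.out (p := p.Prime)).pos k
  have hfin : Finite (G ⧸ M) := by
    refine Finite.of_surjective (fun i : Fin (p ^ k) => (QuotientGroup.mk (g ^ (i : ℕ)) : G ⧸ M)) ?_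
    intro z
    obtain ⟨y, rfl⟩ := QuotientGroup.mk_surjective z
    obtain ⟨q, hq, n, rfl⟩ := mcl_sup M hM hn g hg y
    have hmod : 0 ≤ n % ((p ^ k : ℕ) : ℤ) := Int.emod_nonneg _ (by exact_mod_cast hpk.ne')
    have hmod2 : n % ((p ^ k : ℕ) : ℤ) < ((p ^ k : ℕ) : ℤ) :=
      Int.emod_lt_of_pos _ (by exact_mod_cast hpk)
    refine ⟨⟨(n % ((p ^ k : ℕ) : ℤ)).toNat, by omega⟩, ?_⟩
    have h2 : g ^ (n % ((p ^ k : ℕ) : ℤ)).toNat = g ^ n := by
      rw [← zpow_natCast, Int.toNat_of_nonneg hmod]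
      conv_rhs => rw [← Int.emod_add_mul_ediv n ((p ^ k : ℕ) : ℤ), zpow_add, zpow_mul, zpow_natCast, hk,
        one_zpow, mul_one]
    simp only
    rw [h2]
    rw [QuotientGroup.eq]
    have h3 : (g ^ n)⁻¹ * (q * g ^ n) = (g ^ n)⁻¹ * q * ((g ^ n)⁻¹)⁻¹ := by group
    rw [h3]
    exact hn.conj_mem q hq _
  exact Subgroup.finiteIndex_of_finite_quotient

end Pool.Agent.Helper826.Barely
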