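import Pool.Agent.Helper826.Barely.Limit

/-!
Long cycles in cofinally many finite blocks give long cycles in all blocks of the chain.
-/

set_option autoImplicit false

namespace Pool.Agent.Helper826.Barely

variable {G : Type*} [Group G] {p : ℕ} {S : ℕ → Subgroup G}

theorem rt_index (hp : p.Prime) (hG : IsPGroup p G) {H U : Subgroup G} (hHU : H ≤ U)
    (hfi : H.relIndex U ≠ 0) (y : G) : p ^ (rt p H y - rt p U y) ≤ H.relIndex U := by
  classical
  have hle : rt p U y ≤ rt p H y := rt_anti hG hHU y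
  obtain ⟨d, hd⟩ := Nat.exists_eq_add_of_le hle
  have hdd : rt p H y - rt p U y = d := by omega
  rw [hdd]
  have hz : y ^ (p ^ rt p U y) ∈ U := rt_mem hG U y
  have hfin : Finite (U ⧸ H.subgroupOf U) := by
    have h1 : (H.subgroupOf U).FiniteIndex := ⟨hfi⟩
    infer_instance
  let f : Fin (p ^ d) → U ⧸ H.subgroupOf U := fun i =>
    ((⟨y ^ (p ^ rt p U y), hz⟩ ^ (i : ℕ) : U) : U ⧸ H.subgroupOf U)
  have hinj : Function.Injective f := by
    intro i j hij
    have h1 : ((⟨y ^ (p ^ rt p U y), hz⟩ ^ (i : ℕ) : U))⁻¹ *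
        (⟨y ^ (p ^ rt p U y), hz⟩ ^ (j : ℕ) : U) ∈ H.subgroupOf U := QuotientGroup.eq.1 hij
    rw [Subgroup.mem_subgroupOf] at h1
    have h2 : y ^ (((p ^ rt p U y : ℕ) : ℤ) * ((j : ℤ) - (i : ℤ))) ∈ H := by
      have h3 : y ^ (((p ^ rt p U y : ℕ) : ℤ) * ((j : ℤ) - (i : ℤ)))
          = (y ^ (p ^ rt p U y) ^ 1) ^ (- (i : ℤ)) * (y ^ (p ^ rt p U y) ^ 1) ^ ((j : ℕ) : ℤ) := by
        rw [← zpow_add, pow_one, zpow_mul, zpow_natCast]
        congr 1
        ring
      rw [h3, pow_one]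
      simpa using h1
    have h4 := rt_dvd hp hG h2
    rw [hd, pow_add] at h4
    push_cast at h4
    have hppos : (0 : ℤ) < (p : ℤ) ^ rt p U y := by
      have := hp.pos
      positivity
    have h5 : ((p : ℤ) ^ d) ∣ (j : ℤ) - (i : ℤ) := Int.dvd_of_mul_dvd_mul_left hppos.ne' h4
    have hi := i.2
    have hj := j.2
    have hi' : ((i : ℕ) : ℤ) < (p : ℤ) ^ d := by exact_mod_cast hi
    have hj' : ((j : ℕ) : ℤ) < (p : ℤ) ^ d := by exact_mod_cast hj
    have h6 : (j : ℤ) - (i : ℤ) = 0 := by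
      apply Int.eq_zero_of_abs_lt_dvd h5
      rw [abs_lt]
      constructor <;> omega
    apply Fin.ext
    omega
  have h1 := Nat.card_le_card_of_injective f hinj
  rw [Nat.card_fin] at h1
  exact h1

variable {Ω : Type*} [MulAction G Ω]

theorem count_cycle (hp : p.Prime) (hG : IsPGroup p G) {H U : Subgroup G} (hHU : H ≤ U) {ω : Ω}
    (hstab : ∀ g : G, g ∈ H ↔ g • ω = ω) (B : Finset Ω)
    (hB : ∀ a, a ∈ B ↔ ∃ s ∈ U, s • ω = a) (x : G) (a : Ω) (F' : Finset Ω)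
    (hF' : ∀ b ∈ F', b ∈ B ∧ ∃ n : ℤ, x ^ n • a = b) (hne : F'.Nonempty) :
    ∃ y : G, F'.card ≤ p ^ (rt p H y - rt p U y) := by
  classical
  obtain ⟨b, hb⟩ := hne
  obtain ⟨hbF, n, hn⟩ := hF' b hb
  obtain ⟨s, hs, hsb⟩ := (hB b).1 hbF
  refine ⟨s⁻¹ * x * s, ?_⟩
  set y := s⁻¹ * x * s with hy
  have hle : rt p U y ≤ rt p H y := rt_anti hG hHU y
  obtain ⟨d, hd⟩ := Nat.exists_eq_add_of_le hle
  have hdd : rt p H y - rt p U y = d := by omega
  rw [hdd]
  have hsub : F' ⊆ (Finset.range (p ^ d)).image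
      (fun m : ℕ => (s * y ^ (p ^ rt p U y * m)) • ω) := by
    intro c hc
    obtain ⟨hcF, n', hn'⟩ := hF' c hc
    obtain ⟨t, ht, htc⟩ := (hB c).1 hcF
    have h1 : c = x ^ (n' - n) • b := by
      rw [← hn, ← hn', ← mul_smul, ← zpow_add]
      congr 2
      ring
    have h2 : ∀ l : ℤ, x ^ l * s = s * y ^ l := by
      intro l
      have h3 := conj_zpow (a := s⁻¹) (b := x) (i := l)
      rw [inv_inv] at h3
      rw [hy, h3]
      group
    have h4 : c = (s * y ^ (n' - n)) • ω := by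
      rw [h1, ← hsb, ← mul_smul, h2]
    have h5 : (t⁻¹ * (s * y ^ (n' - n))) • ω = ω := by
      rw [mul_smul, ← h4, ← htc, inv_smul_smul]
    have h6 : t⁻¹ * (s * y ^ (n' - n)) ∈ U := hHU ((hstab _).2 h5)
    have h7 : y ^ (n' - n) ∈ U := by
      have h8 := mul_mem (mul_mem (inv_mem hs) ht) h6
      have h9 : s⁻¹ * t * (t⁻¹ * (s * y ^ (n' - n))) = y ^ (n' - n) := by group
      rwa [h9] at h8
    obtain ⟨q, hq⟩ := rt_dvd hp hG h7
    have hpd : (0 : ℤ) < ((p ^ d : ℕ) : ℤ) := by exact_mod_cast pow_pos hp.pos d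
    have hm0 : 0 ≤ q % ((p ^ d : ℕ) : ℤ) := Int.emod_nonneg _ hpd.ne'
    have hm1 : q % ((p ^ d : ℕ) : ℤ) < ((p ^ d : ℕ) : ℤ) := Int.emod_lt_of_pos _ hpd
    obtain ⟨m, hm⟩ := Int.eq_ofNat_of_zero_le hm0
    refine Finset.mem_image.2 ⟨m, ?_, ?_⟩
    · rw [Finset.mem_range]
      rw [hm] at hm1
      exact_mod_cast hm1
    · rw [h4]
      have hq2 : q = (m : ℤ) + ((p ^ d : ℕ) : ℤ) * (q / ((p ^ d : ℕ) : ℤ)) := by
        rw [← hm]
        exact (Int.emod_add_mul_ediv q _).symm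
      have h10 : n' - n = ((p ^ rt p U y * m : ℕ) : ℤ)
          + ((p ^ rt p H y : ℕ) : ℤ) * (q / ((p ^ d : ℕ) : ℤ)) := by
        rw [hq, hd, pow_add]
        conv_lhs => rw [hq2]
        push_cast
        ring
      have h11 : (y ^ (p ^ rt p H y)) ^ (q / ((p ^ d : ℕ) : ℤ)) ∈ H :=
        zpow_mem (rt_mem hG H y) _
      have h12 := (hstab _).1 h11
      have h13 : (s * y ^ (n' - n)) • ω = (s * y ^ (p ^ rt p U y * m)) •
          ((y ^ (p ^ rt p H y)) ^ (q / ((p ^ d : ℕ) : ℤ)) • ω) := by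
        rw [h10, zpow_add, zpow_mul, zpow_natCast, zpow_natCast, ← mul_assoc, ← mul_smul]
      rw [h13, h12]
  calc F'.card ≤ _ := Finset.card_le_card hsub
    _ ≤ (Finset.range (p ^ d)).card := Finset.card_image_le
    _ = p ^ d := Finset.card_range _

theorem exists_long_block (hp : p.Prime) (hG : IsPGroup p G) (h : IsChain' p S) {ω : Ω}
    (hstab : ∀ g : G, g ∈ S 0 ↔ g • ω = ω)
    (hidx : ∀ k, (S 0).relIndex (S k) = p ^ k)
    (hfinO : ∀ k, (MulAction.orbit (S k) ω).Finite)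
    (htr : ∀ a : Ω, ∃ b : G, b • ω = a)
    {r e : ℕ} (he : r ≤ p ^ e)
    (hr : ∀ F : Finset Ω, ∃ B : Finset Ω, F ⊆ B ∧
      (∀ g : G, (∃ b ∈ B, g • b ∈ B) → ∀ b ∈ B, g • b ∈ B) ∧
      ∃ x : G, ∃ a : Ω, ∃ F' : Finset Ω, (∀ b ∈ F', b ∈ B ∧ ∃ n : ℤ, x ^ n • a = b) ∧
        B.card ≤ r * F'.card) (M : ℕ) :
    ∃ x : G, ∀ N, N ≤ M → N + rt p (S N) x ≤ e + rt p (S 0) x := by
  classical
  obtain ⟨B, hFB, hBb, x, a, F', hF', hBF⟩ := hr (hfinO M).toFinset
  have hωM : ω ∈ (hfinO M).toFinset := (hfinO M).mem_toFinset.2 (MulAction.mem_orbit_self ω)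
  have hω : ω ∈ B := hFB hωM
  -- the setwise stabiliser of the block
  have hinv : ∀ g : G, (∀ b ∈ B, g • b ∈ B) → (∀ b ∈ B, g⁻¹ • b ∈ B) := by
    intro g hg
    have h1 : B.image (fun b => g • b) ⊆ B := by
      intro c hc
      obtain ⟨b, hb, rfl⟩ := Finset.mem_image.1 hc
      exact hg b hb
    have h2 : (B.image (fun b => g • b)).card = B.card :=
      Finset.card_image_of_injective _ (MulAction.injective g)
    have h3 := Finset.eq_of_subset_of_card_le h1 h2.ge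
    intro b hb
    rw [← h3] at hb
    obtain ⟨c, hc, rfl⟩ := Finset.mem_image.1 hb
    simpa using hc
  let U : Subgroup G :=
    { carrier := {g | ∀ b ∈ B, g • b ∈ B}
      one_mem' := fun b hb => by simpa using hb
      mul_mem' := fun {g k} hg hk b hb => by
        rw [mul_smul]
        exact hg _ (hk b hb)
      inv_mem' := fun {g} hg => hinv g hg }
  have hUmem : ∀ g : G, g ∈ U ↔ ∀ b ∈ B, g • b ∈ B := fun g => Iff.rfl
  have hU : ∀ a, a ∈ B ↔ ∃ s ∈ U, s • ω = a := by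
    intro a
    constructor
    · intro ha
      obtain ⟨s, hs⟩ := htr a
      exact ⟨s, hBb s ⟨ω, hω, by rw [hs]; exact ha⟩, hs⟩
    · rintro ⟨s, hs, rfl⟩
      exact hs ω hω
  have hSU : ∀ N, N ≤ M → S N ≤ U := by
    intro N hN s hs
    apply hBb s
    refine ⟨ω, hω, hFB ((hfinO M).mem_toFinset.2 ?_)⟩
    exact ⟨⟨s, h.mono hN hs⟩, rfl⟩
  have hS0U : S 0 ≤ U := hSU 0 (Nat.zero_le _)
  have hBpos : 0 < B.card := Finset.card_pos.2 ⟨ω, hω⟩
  have hne : F'.Nonempty := by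
    rw [← Finset.card_pos]
    rcases Nat.eq_zero_or_pos F'.card with h0 | h0
    · rw [h0, mul_zero] at hBF
      omega
    · exact h0
  obtain ⟨y, hy⟩ := count_cycle hp hG hS0U hstab B hU x a F' hF' hne
  have hBidx : (S 0).relIndex U = B.card := by
    have h1 : S 0 = MulAction.stabilizer G ω := by
      ext g
      rw [hstab, MulAction.mem_stabilizer_iff]
    have h2 : (MulAction.orbit U ω) = (B : Set Ω) := by
      ext c
      rw [Finset.mem_coe, hU]
      constructor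
      · rintro ⟨⟨s, hs⟩, rfl⟩
        exact ⟨s, hs, rfl⟩
      · rintro ⟨s, hs, rfl⟩
        exact ⟨⟨s, hs⟩, rfl⟩
    have h3 : (MulAction.stabilizer G ω).relIndex U = (MulAction.orbit U ω).ncard := by
      rw [← MulAction.index_stabilizer]
      rfl
    rw [h1, h3, h2, Set.ncard_coe_finset]
  refine ⟨y, fun N hN => ?_⟩
  have hS0N : S 0 ≤ S N := h.mono (Nat.zero_le N)
  have h1 := Subgroup.relIndex_mul_relIndex (S 0) (S N) U hS0N (hSU N hN)
  rw [hidx, hBidx] at h1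
  have hfi : (S N).relIndex U ≠ 0 := by
    intro h2
    rw [h2, mul_zero] at h1
    omega
  have h2 := rt_index hp hG (hSU N hN) hfi y
  have h3 : p ^ (N + (rt p (S N) y - rt p U y)) ≤ p ^ (e + (rt p (S 0) y - rt p U y)) := by
    calc p ^ (N + (rt p (S N) y - rt p U y)) = p ^ N * p ^ (rt p (S N) y - rt p U y) :=
          pow_add _ _ _
      _ ≤ p ^ N * (S N).relIndex U := Nat.mul_le_mul_left _ h2
      _ = B.card := h1
      _ ≤ r * F'.card := hBF
      _ ≤ p ^ e * p ^ (rt p (S 0) y - rt p U y) := Nat.mul_le_mul he hy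
      _ = p ^ (e + (rt p (S 0) y - rt p U y)) := (pow_add _ _ _).symm
  have h4 := (Nat.pow_le_pow_iff_right hp.one_lt).1 h3
  have h5 : rt p U y ≤ rt p (S N) y := rt_anti hG (hSU N hN) y
  have h6 : rt p U y ≤ rt p (S 0) y := rt_anti hG hS0U y
  omega

end Pool.Agent.Helper826.Barely
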