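import Pool.Agent.Helper826.Barely.Chain

/-!
The correction lemma and the recursion saving exponents.
-/

set_option autoImplicit false

namespace Pool.Agent.Helper826.Barely

variable {G : Type*} [Group G] {p : ℕ} {S : ℕ → Subgroup G}

/-- Elements whose labels at level `k+1` are constant on cosets of `S M`. -/
def L (S : ℕ → Subgroup G) (N k M : ℕ) (w : G) : Prop :=
  ∀ a ∈ S N, a⁻¹ * w * a ∈ S (k + 1) ∧
    ∀ t ∈ S M, (a * t)⁻¹ * w * (a * t) * (a⁻¹ * w * a)⁻¹ ∈ S k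

namespace IsChain'

theorem L_one {N k M : ℕ} : L S N k M (1 : G) := by
  intro a _
  refine ⟨by simp, fun t _ => ?_⟩
  have : (a * t)⁻¹ * 1 * (a * t) * (a⁻¹ * 1 * a)⁻¹ = 1 := by group
  rw [this]
  exact one_mem _

theorem L_mul (h : IsChain' p S) {N k M : ℕ} (hMN : M ≤ N) {w v : G} (hw : L S N k M w)
    (hv : L S N k M v) : L S N k M (w * v) := by
  intro a ha
  obtain ⟨hw1, hw2⟩ := hw a ha
  obtain ⟨hv1, hv2⟩ := hv a ha
  refine ⟨?_, fun t ht => ?_⟩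
  · have h1 := mul_mem hw1 hv1
    have h2 : a⁻¹ * w * a * (a⁻¹ * v * a) = a⁻¹ * (w * v) * a := by group
    rwa [h2] at h1
  · have hat : a * t ∈ S N := mul_mem ha (h.mono hMN ht)
    have h1 := (hw (a * t) hat).1
    have h2 := hw2 t ht
    have h3 := hv2 t ht
    have h4 := h.norm k _ (inv_mem h1) _ h3
    have h5 := mul_mem h4 h2
    have h6 : ((a * t)⁻¹ * w * (a * t))⁻¹⁻¹ * ((a * t)⁻¹ * v * (a * t) * (a⁻¹ * v * a)⁻¹)
        * ((a * t)⁻¹ * w * (a * t))⁻¹ * ((a * t)⁻¹ * w * (a * t) * (a⁻¹ * w * a)⁻¹)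
        = (a * t)⁻¹ * (w * v) * (a * t) * (a⁻¹ * (w * v) * a)⁻¹ := by group
    rwa [h6] at h5

theorem L_inv (h : IsChain' p S) {N k M : ℕ} (hMN : M ≤ N) {w : G} (hw : L S N k M w) :
    L S N k M w⁻¹ := by
  intro a ha
  obtain ⟨hw1, hw2⟩ := hw a ha
  refine ⟨?_, fun t ht => ?_⟩
  · have h1 := inv_mem hw1
    have h2 : (a⁻¹ * w * a)⁻¹ = a⁻¹ * w⁻¹ * a := by group
    rwa [h2] at h1
  · have hat : a * t ∈ S N := mul_mem ha (h.mono hMN ht)
    have h1 := (hw (a * t) hat).1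
    have h2 := inv_mem (hw2 t ht)
    have h4 := h.norm k _ h1 _ h2
    have h6 : ((a * t)⁻¹ * w * (a * t))⁻¹ * ((a * t)⁻¹ * w * (a * t) * (a⁻¹ * w * a)⁻¹)⁻¹
        * ((a * t)⁻¹ * w * (a * t))
        = (a * t)⁻¹ * w⁻¹ * (a * t) * (a⁻¹ * w⁻¹ * a)⁻¹ := by group
    rwa [h6] at h4

theorem L_pow (h : IsChain' p S) {N k M : ℕ} (hMN : M ≤ N) {w : G} (hw : L S N k M w) (n : ℕ) :
    L S N k M (w ^ n) := by
  induction n with
  | zero => simpa using L_one
  | succ n ih => rw [pow_succ]; exact h.L_mul hMN ih hw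

theorem L_z {N k M : ℕ} {z : G} (hz : z ∈ R S M)
    (hz2 : ∀ a ∈ S M, a⁻¹ * z * a ∈ S (k + 1) ∧ a⁻¹ * z * a * z⁻¹ ∈ S k)
    (h : IsChain' p S) {b : G} : L S N k M (b * z * b⁻¹) := by
  intro a _
  have e1 : a⁻¹ * (b * z * b⁻¹) * a = (b⁻¹ * a)⁻¹ * z * (b⁻¹ * a) := by group
  have e2 : ∀ t, (a * t)⁻¹ * (b * z * b⁻¹) * (a * t) = (b⁻¹ * a * t)⁻¹ * z * (b⁻¹ * a * t) := by
    intro t
    group
  by_cases hab : b⁻¹ * a ∈ S M
  · refine ⟨by rw [e1]; exact (hz2 _ hab).1, fun t ht => ?_⟩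
    rw [e1, e2]
    have h1 := (hz2 _ (mul_mem hab ht)).2
    have h2 := (hz2 _ hab).2
    have h3 := mul_mem h1 (inv_mem h2)
    have h4 : (b⁻¹ * a * t)⁻¹ * z * (b⁻¹ * a * t) * z⁻¹ * ((b⁻¹ * a)⁻¹ * z * (b⁻¹ * a) * z⁻¹)⁻¹
        = (b⁻¹ * a * t)⁻¹ * z * (b⁻¹ * a * t) * ((b⁻¹ * a)⁻¹ * z * (b⁻¹ * a))⁻¹ := by group
    rwa [h4] at h3
  · refine ⟨by rw [e1]; exact h.mono (Nat.zero_le _) (hz _ hab), fun t ht => ?_⟩
    rw [e1, e2]
    have hab' : b⁻¹ * a * t ∉ S M := by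
      intro h1
      apply hab
      have := mul_mem h1 (inv_mem ht)
      simpa using this
    exact h.mono (Nat.zero_le _) (mul_mem (hz _ hab') (inv_mem (hz _ hab)))

theorem correct (h : IsChain' p S) {N k M : ℕ} (hMN : M ≤ N) (hg : Good S k M) {w : G}
    (hw : L S N k M w) (T : Finset G) (hT : ∀ b ∈ T, b ∈ S N) :
    ∃ g ∈ R S N, L S N k M (w * g) ∧ ∀ b ∈ T, b⁻¹ * (w * g) * b ∈ S k := by
  classical
  obtain ⟨z, hz, hzk, hz2⟩ := hg
  induction T using Finset.induction_on with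
  | empty => exact ⟨1, one_mem _, by simpa using hw, by simp⟩
  | insert b T hbT ih =>
    obtain ⟨g, hg, hL, hgT⟩ := ih (fun b hb => hT b (Finset.mem_insert_of_mem hb))
    have hb : b ∈ S N := hT b (Finset.mem_insert_self _ _)
    by_cases h0 : b⁻¹ * (w * g) * b ∈ S k
    · refine ⟨g, hg, hL, ?_⟩
      intro b' hb'
      rcases Finset.mem_insert.1 hb' with rfl | hb'
      · exact h0
      · exact hgT b' hb'
    · have hz1 : z ∈ S (k + 1) := by
        have := (hz2 1 (one_mem _)).1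
        simpa using this
      obtain ⟨i, c, hc, hic⟩ := h.gen k z hz1 hzk _ (hL b hb).1
      have hzb : b * z * b⁻¹ ∈ R S N := h.R_conj hb (h.R_mono hMN hz)
      refine ⟨g * ((b * z * b⁻¹)⁻¹) ^ i, mul_mem hg (pow_mem (inv_mem hzb) i), ?_, ?_⟩
      · rw [← mul_assoc]
        exact h.L_mul hMN hL (h.L_pow hMN (h.L_inv hMN (L_z hz hz2 h)) i)
      · intro b' hb'
        have e1 : b'⁻¹ * (w * (g * ((b * z * b⁻¹)⁻¹) ^ i)) * b'
            = b'⁻¹ * (w * g) * b' * (b'⁻¹ * ((b * z * b⁻¹)⁻¹) ^ i * b') := by group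
        have e2 : b'⁻¹ * ((b * z * b⁻¹)⁻¹) ^ i * b' = (((b⁻¹ * b')⁻¹ * z * (b⁻¹ * b'))⁻¹) ^ i := by
          have h1 := conj_pow (a := b'⁻¹) (b := (b * z * b⁻¹)⁻¹) (i := i)
          rw [inv_inv] at h1
          rw [← h1]
          congr 1
          group
        rcases Finset.mem_insert.1 hb' with rfl | hb'
        · rw [e1, e2, hic]
          have e3 : ((b'⁻¹ * b')⁻¹ * z * (b'⁻¹ * b'))⁻¹ = z⁻¹ := by group
          rw [e3]
          have h1 := h.norm k _ (pow_mem (inv_mem hz1) i) c hc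
          have e4 : ((z⁻¹) ^ i)⁻¹ = z ^ i := by simp
          rwa [e4] at h1
        · have hab' : b⁻¹ * b' ∉ S M := by
            intro ht
            have h1 := (hL b hb).2 _ ht
            have e5 : b * (b⁻¹ * b') = b' := by group
            rw [e5] at h1
            have h2 := mul_mem (inv_mem h1) (hgT b' hb')
            have e6 : (b'⁻¹ * (w * g) * b' * (b⁻¹ * (w * g) * b)⁻¹)⁻¹ * (b'⁻¹ * (w * g) * b')
              = b⁻¹ * (w * g) * b := by group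
            rw [e6] at h2
            exact h0 h2
          rw [e1, e2]
          exact mul_mem (hgT b' hb')
            (pow_mem (inv_mem (h.mono (Nat.zero_le _) (hz _ hab'))) i)

theorem reps (h : IsChain' p S) (hp : 0 < p) (M d : ℕ) : ∃ T : Finset G,
    (∀ b ∈ T, b ∈ S (M + d)) ∧ ∀ a ∈ S (M + d), ∃ b ∈ T, b⁻¹ * a ∈ S M := by
  classical
  induction d with
  | zero =>
    refine ⟨{1}, ?_, ?_⟩
    · intro b hb
      rw [Finset.mem_singleton.1 hb]
      exact one_mem _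
    · intro a ha
      exact ⟨1, Finset.mem_singleton_self _, by simpa using ha⟩
  | succ d ih =>
    obtain ⟨T, hT1, hT2⟩ := ih
    by_cases hex : ∃ v ∈ S (M + d + 1), v ∉ S (M + d)
    · obtain ⟨v, hv, hv'⟩ := hex
      refine ⟨Finset.image₂ (fun i b => v ^ i * b) (Finset.range p) T, ?_, ?_⟩
      · intro b hb
        obtain ⟨i, -, b', hb', rfl⟩ := Finset.mem_image₂.1 hb
        exact mul_mem (pow_mem hv i) (h.step _ (hT1 b' hb'))
      · intro a ha
        obtain ⟨i, c, hc, rfl⟩ := h.gen (M + d) v hv hv' a ha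
        have hvp := h.pow (M + d) v hv
        have e1 : v ^ i = v ^ (i % p) * (v ^ p) ^ (i / p) := by
          rw [← pow_mul, ← pow_add, Nat.mod_add_div]
        obtain ⟨b, hb, hb'⟩ := hT2 ((v ^ p) ^ (i / p) * c) (mul_mem (pow_mem hvp _) hc)
        refine ⟨v ^ (i % p) * b, Finset.mem_image₂.2
          ⟨i % p, Finset.mem_range.2 (Nat.mod_lt _ hp), b, hb, rfl⟩, ?_⟩
        rw [e1]
        have e2 : (v ^ (i % p) * b)⁻¹ * (v ^ (i % p) * (v ^ p) ^ (i / p) * c)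
          = b⁻¹ * ((v ^ p) ^ (i / p) * c) := by group
        rw [e2]
        exact hb'
    · push Not at hex
      refine ⟨T, fun b hb => h.step _ (hT1 b hb), fun a ha => hT2 a (hex a ha)⟩

theorem W_good (h : IsChain' p S) (hp : 0 < p) {N j k M c : ℕ} (hg : Good S k M) (hMj : M ≤ j)
    (hjN : j ≤ N) (hW : W p S N j c) : W p S N k (c + (j - k - 1)) := by
  intro s hs
  obtain ⟨g, hgR, hgK⟩ := hW s hs
  have hkM := hg.lt h
  obtain ⟨e, he⟩ : ∃ e, j = k + 1 + e := ⟨j - k - 1, by omega⟩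
  have hje : j - k - 1 = e := by omega
  rw [hje]
  obtain ⟨g'', hg'', hpow⟩ := h.mul_pow_R (pow_mem hs (p ^ c)) hgR (p ^ e)
  have hL : L S N k M ((s ^ (p ^ c) * g) ^ (p ^ e)) := by
    intro a ha
    have h1 := hgK a ha
    rw [he] at h1
    have e1 : ∀ b, b⁻¹ * (s ^ (p ^ c) * g) ^ (p ^ e) * b
        = (b⁻¹ * (s ^ (p ^ c) * g) * b) ^ (p ^ e) := by
      intro b
      have := conj_pow (a := b⁻¹) (b := s ^ (p ^ c) * g) (i := p ^ e)
      simpa using this.symm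
    refine ⟨?_, fun t ht => ?_⟩
    · have h2 := (h.const k e _ h1 1 (one_mem _)).1
      simp only [inv_one, one_mul, mul_one] at h2
      rw [e1]
      exact h2
    · have ht' : t ∈ S (k + 1 + e) := h.mono (by omega) ht
      have h2 := (h.const k e _ h1 t ht').2
      rw [← e1] at h2
      have e3 : t⁻¹ * (a⁻¹ * (s ^ (p ^ c) * g) ^ (p ^ e) * a) * t
        = (a * t)⁻¹ * (s ^ (p ^ c) * g) ^ (p ^ e) * (a * t) := by group
      rwa [e3] at h2
  obtain ⟨T, hT1, hT2⟩ := h.reps hp M (N - M)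
  have hMN : M + (N - M) = N := by omega
  rw [hMN] at hT1 hT2
  obtain ⟨g', hg', hL', hT'⟩ := h.correct (hMj.trans hjN) hg hL T hT1
  refine ⟨g'' * g', mul_mem hg'' hg', ?_⟩
  intro a ha
  obtain ⟨b, hb, hba⟩ := hT2 a ha
  have h1 := (hL' b (hT1 b hb)).2 _ hba
  have e5 : b * (b⁻¹ * a) = a := by group
  rw [e5] at h1
  have h2 := mul_mem h1 (hT' b hb)
  have e6 : a⁻¹ * ((s ^ (p ^ c) * g) ^ (p ^ e) * g') * a
      * (b⁻¹ * ((s ^ (p ^ c) * g) ^ (p ^ e) * g') * b)⁻¹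
      * (b⁻¹ * ((s ^ (p ^ c) * g) ^ (p ^ e) * g') * b)
      = a⁻¹ * ((s ^ (p ^ c) * g) ^ (p ^ e) * g') * a := by group
  rw [e6, hpow, ← pow_mul, ← pow_add, mul_assoc (s ^ _) g'' g'] at h2
  exact h2

/-- The recursion: if good levels are unbounded then every amount of exponent is saved. -/
theorem recursion (h : IsChain' p S) (hp : 0 < p)
    (hgood : ∀ k0, ∃ k, k0 ≤ k ∧ ∃ M, Good S k M) (r : ℕ) :
    ∃ n0, ∀ j, n0 ≤ j → ∀ N, j ≤ N → ∀ c, W p S N j c → r ≤ j ∧ W p S N 0 (c + j - r) := by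
  induction r with
  | zero =>
    refine ⟨0, fun j _ N _ c hW => ⟨Nat.zero_le _, ?_⟩⟩
    rw [Nat.sub_zero]
    exact h.W_steps hW
  | succ r ih =>
    obtain ⟨n0, hn0⟩ := ih
    obtain ⟨k, hk, M, hg⟩ := hgood n0
    refine ⟨M, fun j hj N hN c hW => ?_⟩
    have hkM := hg.lt h
    have h1 := h.W_good hp hg hj hN hW
    obtain ⟨h2, h3⟩ := hn0 k hk N (by omega) _ h1
    refine ⟨by omega, ?_⟩
    have e1 : c + (j - k - 1) + k - r = c + j - (r + 1) := by omega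
    rwa [e1] at h3

end IsChain'

end Pool.Agent.Helper826.Barely
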