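import Pool.Agent.Helper826.Barely.Correct

/-!
The limit argument.
-/

set_option autoImplicit false

namespace Pool.Agent.Helper826.Barely

variable {G : Type*} [Group G] {p : ℕ} {S : ℕ → Subgroup G}

/-- The least `a` with `x ^ (p ^ a) ∈ H`. -/
noncomputable def rt (p : ℕ) (H : Subgroup G) (x : G) : ℕ := sInf {a | x ^ (p ^ a) ∈ H}

theorem rt_mem (hG : IsPGroup p G) (H : Subgroup G) (x : G) : x ^ (p ^ rt p H x) ∈ H := by
  have hne : {a | x ^ (p ^ a) ∈ H}.Nonempty := by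
    obtain ⟨k, hk⟩ := hG x
    refine ⟨k, ?_⟩
    change x ^ (p ^ k) ∈ H
    rw [hk]
    exact one_mem _
  exact Nat.sInf_mem hne

theorem rt_le {H : Subgroup G} {x : G} {a : ℕ} (h : x ^ (p ^ a) ∈ H) : rt p H x ≤ a :=
  Nat.sInf_le h

theorem rt_dvd (hp : p.Prime) (hG : IsPGroup p G) {H : Subgroup G} {x : G} {n : ℤ}
    (h : x ^ n ∈ H) : ((p ^ rt p H x : ℕ) : ℤ) ∣ n := by
  have h1 : x ^ (Int.gcd n ((p ^ rt p H x : ℕ) : ℤ)) ∈ H := by
    have h2 : x ^ ((Int.gcd n ((p ^ rt p H x : ℕ) : ℤ) : ℕ) : ℤ) ∈ H := by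
      rw [Int.gcd_eq_gcd_ab, zpow_add, zpow_mul, zpow_mul]
      refine mul_mem (zpow_mem h _) (zpow_mem ?_ _)
      rw [zpow_natCast]
      exact rt_mem hG H x
    rwa [zpow_natCast] at h2
  have h3 : Int.gcd n ((p ^ rt p H x : ℕ) : ℤ) ∣ p ^ rt p H x := by
    have := Int.gcd_dvd_right n ((p ^ rt p H x : ℕ) : ℤ)
    exact_mod_cast this
  obtain ⟨i, hi, hi2⟩ := (Nat.dvd_prime_pow hp).1 h3
  rw [hi2] at h1
  have h4 := rt_le h1
  have h5 : i = rt p H x := le_antisymm hi h4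
  rw [h5] at hi2
  have h6 := Int.gcd_dvd_left n ((p ^ rt p H x : ℕ) : ℤ)
  rwa [hi2] at h6

theorem rt_anti (hG : IsPGroup p G) {H H' : Subgroup G} (h : H ≤ H') (x : G) :
    rt p H' x ≤ rt p H x := rt_le (h (rt_mem hG H x))

theorem IsChain'.rt_step (h : IsChain' p S) (hG : IsPGroup p G) (k : ℕ) (x : G) :
    rt p (S k) x ≤ rt p (S (k + 1)) x + 1 := by
  apply rt_le
  have h1 := h.pow k _ (rt_mem hG (S (k + 1)) x)
  rwa [← pow_mul, ← pow_succ] at h1

theorem IsChain'.rt_sub (h : IsChain' p S) (hG : IsPGroup p G) (k d : ℕ) (x : G) :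
    rt p (S k) x ≤ rt p (S (k + d)) x + d := by
  induction d with
  | zero => simp
  | succ d ih =>
    have := h.rt_step hG (k + d) x
    have e : k + (d + 1) = k + d + 1 := by omega
    rw [e]
    omega

variable {Ω : Type*} [MulAction G Ω]

theorem exists_long (hp : p.Prime) (hG : IsPGroup p G) (h : IsChain' p S) {ω : Ω}
    (hstab : ∀ g : G, g ∈ S 0 ↔ g • ω = ω)
    (hcard : ∀ k, ∃ F : Finset Ω, (∀ a, a ∈ F ↔ ∃ s ∈ S k, s • ω = a) ∧ p ^ k ≤ F.card)
    {r e : ℕ} (he : r ≤ p ^ e)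
    (hr : ∀ F : Finset Ω, ∃ x : G, ∃ a : Ω, ∃ F' : Finset Ω, (∀ b ∈ F', b ∈ F ∧ ∃ n : ℤ,
      x ^ n • a = b) ∧ F.card ≤ r * F'.card) (M : ℕ) :
    ∃ x : G, ∀ N, N ≤ M → N + rt p (S N) x ≤ e + rt p (S 0) x := by
  classical
  obtain ⟨F, hF, hFc⟩ := hcard M
  obtain ⟨x, a, F', hF', hFF⟩ := hr F
  have hpos : 0 < F'.card := by
    rcases Nat.eq_zero_or_pos F'.card with h0 | h0
    · rw [h0, mul_zero] at hFF
      have := pow_pos hp.pos M
      omega
    · exact h0
  obtain ⟨b, hb⟩ := Finset.card_pos.1 hpos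
  obtain ⟨hbF, n, hn⟩ := hF' b hb
  obtain ⟨s, hs, hsb⟩ := (hF b).1 hbF
  have hMM : M + rt p (S M) (s⁻¹ * x * s) ≤ e + rt p (S 0) (s⁻¹ * x * s) := by
    set y := s⁻¹ * x * s with hy
    have hle : rt p (S M) y ≤ rt p (S 0) y := rt_anti hG (h.mono (Nat.zero_le M)) y
    obtain ⟨d, hd⟩ := Nat.exists_eq_add_of_le hle
    have hsub : F' ⊆ (Finset.range (p ^ d)).image
        (fun m : ℕ => (s * y ^ (p ^ rt p (S M) y * m)) • ω) := by
      intro c hc
      obtain ⟨hcF, n', hn'⟩ := hF' c hc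
      obtain ⟨t, ht, htc⟩ := (hF c).1 hcF
      have h1 : c = x ^ (n' - n) • b := by
        rw [← hn, ← hn', ← mul_smul, ← zpow_add]
        congr 2
        ring
      have h2 : ∀ l : ℤ, x ^ l * s = s * y ^ l := by
        intro l
        have h3 := conj_zpow (a := s⁻¹) (b := x) (i := l)
        rw [inv_inv] at h3
        rw [hy, h3]
        group
      have h4 : c = (s * y ^ (n' - n)) • ω := by
        rw [h1, ← hsb, ← mul_smul, h2]
      have h5 : (t⁻¹ * (s * y ^ (n' - n))) • ω = ω := by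
        rw [mul_smul, ← h4, ← htc, inv_smul_smul]
      have h6 : t⁻¹ * (s * y ^ (n' - n)) ∈ S M := h.mono (Nat.zero_le M) ((hstab _).2 h5)
      have h7 : y ^ (n' - n) ∈ S M := by
        have h8 := mul_mem (mul_mem (inv_mem hs) ht) h6
        have h9 : s⁻¹ * t * (t⁻¹ * (s * y ^ (n' - n))) = y ^ (n' - n) := by group
        rwa [h9] at h8
      obtain ⟨q, hq⟩ := rt_dvd hp hG h7
      have hpd : (0 : ℤ) < ((p ^ d : ℕ) : ℤ) := by exact_mod_cast pow_pos hp.pos d
      have hm0 : 0 ≤ q % ((p ^ d : ℕ) : ℤ) := Int.emod_nonneg _ hpd.ne'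
      have hm1 : q % ((p ^ d : ℕ) : ℤ) < ((p ^ d : ℕ) : ℤ) := Int.emod_lt_of_pos _ hpd
      obtain ⟨m, hm⟩ := Int.eq_ofNat_of_zero_le hm0
      refine Finset.mem_image.2 ⟨m, ?_, ?_⟩
      · rw [Finset.mem_range]
        rw [hm] at hm1
        exact_mod_cast hm1
      · rw [h4]
        have hq2 : q = (m : ℤ) + ((p ^ d : ℕ) : ℤ) * (q / ((p ^ d : ℕ) : ℤ)) := by
          rw [← hm]
          exact (Int.emod_add_mul_ediv q _).symm
        have h10 : n' - n = ((p ^ rt p (S M) y * m : ℕ) : ℤ)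
            + ((p ^ rt p (S 0) y : ℕ) : ℤ) * (q / ((p ^ d : ℕ) : ℤ)) := by
          rw [hq, hd, pow_add]
          conv_lhs => rw [hq2]
          push_cast
          ring
        have h11 : (y ^ (p ^ rt p (S 0) y)) ^ (q / ((p ^ d : ℕ) : ℤ)) ∈ S 0 :=
          zpow_mem (rt_mem hG (S 0) y) _
        have h12 := (hstab _).1 h11
        have h13 : (s * y ^ (n' - n)) • ω = (s * y ^ (p ^ rt p (S M) y * m)) •
            ((y ^ (p ^ rt p (S 0) y)) ^ (q / ((p ^ d : ℕ) : ℤ)) • ω) := by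
          rw [h10, zpow_add, zpow_mul, zpow_natCast, zpow_natCast, ← mul_assoc, ← mul_smul]
        rw [h13, h12]
    have hc1 : F'.card ≤ p ^ d := by
      calc F'.card ≤ _ := Finset.card_le_card hsub
        _ ≤ (Finset.range (p ^ d)).card := Finset.card_image_le
        _ = p ^ d := Finset.card_range _
    have hc2 : p ^ M ≤ p ^ (e + d) := by
      calc p ^ M ≤ F.card := hFc
        _ ≤ r * F'.card := hFF
        _ ≤ p ^ e * p ^ d := Nat.mul_le_mul he hc1
        _ = p ^ (e + d) := (pow_add _ _ _).symm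
    have hc3 : M ≤ e + d := (Nat.pow_le_pow_iff_right hp.one_lt).1 hc2
    omega
  refine ⟨s⁻¹ * x * s, fun N hN => ?_⟩
  obtain ⟨d, rfl⟩ := Nat.exists_eq_add_of_le hN
  have := h.rt_sub hG N d (s⁻¹ * x * s)
  omega

theorem limit (hp : p.Prime) (hG : IsPGroup p G) (h : IsChain' p S) {ω : Ω}
    (hstab : ∀ g : G, g ∈ S 0 ↔ g • ω = ω)
    (htr : ∀ a : Ω, ∃ b : G, b • ω = a)
    (hfaith : ∀ g : G, (∀ a : Ω, g • a = a) → g = 1)
    (hR : ∀ g : G, ∃ M, g ∈ R S M)
    (hfinR : ∀ M, (R S M : Set G).Finite)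
    (hnc : ∃ g k : G, g * k ≠ k * g)
    (hprop : ∀ H : Subgroup G, H ≠ ⊤ → ∃ m, H ≤ S m)
    {e : ℕ} (hlong : ∀ M, ∃ x : G, ∀ N, N ≤ M → N + rt p (S N) x ≤ e + rt p (S 0) x)
    (hrec : ∀ r, ∃ n0, ∀ N, n0 ≤ N → r ≤ N ∧ IsChain'.W p S N 0 (N - r)) : False := by
  classical
  choose x hx using hlong
  obtain ⟨g, k, hgk⟩ := hnc
  obtain ⟨L0, hg, hk⟩ : ∃ L0, g ∈ R S L0 ∧ k ∈ R S L0 := by
    obtain ⟨M1, h1⟩ := hR g
    obtain ⟨M2, h2⟩ := hR k
    exact ⟨max M1 M2, h.R_mono (le_max_left _ _) h1, h.R_mono (le_max_right _ _) h2⟩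
  have hRfix : ∀ {N : ℕ} {y : G}, y ∈ R S N → ∀ {b : G}, b ∉ S N → (y * b) • ω = b • ω := by
    intro N y hy b hb
    have h1 := (hstab _).1 (hy b hb)
    rw [mul_assoc, mul_smul, inv_smul_eq_iff] at h1
    exact h1
  let U : Ultrafilter ℕ := Filter.hyperfilter ℕ
  let Y : Set G := {y | ∃ N, L0 ≤ N ∧ y ∈ R S N ∧ ∃ a : ℕ → ℤ, ∀ᶠ M in (U : Filter ℕ),
    ∀ s ∈ S N, (y * s) • ω = (x M ^ (a M) * s) • ω}
  have claim1 : ∀ w ∈ Subgroup.closure Y, ∀ b : G, ∃ a : ℕ → ℤ, ∀ᶠ M in (U : Filter ℕ),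
      ∀ s ∈ S L0, (w * (b * s)) • ω = (x M ^ (a M) * (b * s)) • ω := by
    intro w hw
    induction hw using Subgroup.closure_induction with
    | mem y hy =>
      intro b
      obtain ⟨N, hN, hyR, a, ha⟩ := hy
      by_cases hb : b ∈ S N
      · refine ⟨a, ha.mono fun M hM s hs => ?_⟩
        exact hM (b * s) (mul_mem hb (h.mono hN hs))
      · refine ⟨fun _ => 0, Filter.Eventually.of_forall fun M s hs => ?_⟩
        have hbs : b * s ∉ S N := by
          intro h1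
          apply hb
          have := mul_mem h1 (inv_mem (h.mono hN hs))
          simpa using this
        rw [hRfix hyR hbs]
        simp
    | one =>
      intro b
      exact ⟨fun _ => 0, Filter.Eventually.of_forall fun M s hs => by simp⟩
    | mul w1 w2 _ _ ih1 ih2 =>
      intro b
      obtain ⟨a2, ha2⟩ := ih2 b
      obtain ⟨a1, ha1⟩ := ih1 (w2 * b)
      refine ⟨fun M => a1 M + a2 M, (ha1.and ha2).mono fun M hM s hs => ?_⟩
      have e1 := hM.1 s hs
      have e2 := hM.2 s hs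
      calc (w1 * w2 * (b * s)) • ω = (w1 * (w2 * b * s)) • ω := by
            congr 1
            group
        _ = (x M ^ (a1 M) * (w2 * b * s)) • ω := e1
        _ = (x M ^ (a1 M)) • ((w2 * (b * s)) • ω) := by
            rw [← mul_smul]
            congr 1
            group
        _ = (x M ^ (a1 M)) • ((x M ^ (a2 M) * (b * s)) • ω) := by rw [e2]
        _ = (x M ^ (a1 M + a2 M) * (b * s)) • ω := by
            rw [← mul_smul, zpow_add]
            congr 1
            group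
    | inv w1 _ ih =>
      intro b
      obtain ⟨a1, ha1⟩ := ih (w1⁻¹ * b)
      refine ⟨fun M => - a1 M, ha1.mono fun M hM s hs => ?_⟩
      have e1 := hM s hs
      have e2 : (w1 * (w1⁻¹ * b * s)) • ω = (b * s) • ω := by
        congr 1
        group
      rw [e2] at e1
      calc (w1⁻¹ * (b * s)) • ω = (x M ^ (- a1 M)) • ((x M ^ (a1 M) * (w1⁻¹ * b * s)) • ω) := by
            rw [← mul_smul]
            congr 1
            group
        _ = (x M ^ (- a1 M)) • ((b * s) • ω) := by rw [e1]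
        _ = _ := by rw [← mul_smul]
  have claim2 : Subgroup.closure Y ≠ ⊤ := by
    intro htop
    obtain ⟨a1, ha1⟩ := claim1 g (by rw [htop]; trivial) 1
    obtain ⟨a2, ha2⟩ := claim1 k (by rw [htop]; trivial) 1
    obtain ⟨M, hM1, hM2⟩ := (ha1.and ha2).exists
    apply hgk
    have hcomm : ∀ b : G, (g * k * b) • ω = (k * g * b) • ω := by
      intro b
      by_cases hb : b ∈ S L0
      · have hkb : k * b ∈ S L0 := mul_mem (h.R_le _ hk) hb
        have hgb : g * b ∈ S L0 := mul_mem (h.R_le _ hg) hb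
        have e1 := hM1 _ hkb
        have e2 := hM2 _ hb
        have e3 := hM2 _ hgb
        have e4 := hM1 _ hb
        simp only [one_mul] at e1 e2 e3 e4
        have l1 : (g * k * b) • ω = (x M ^ (a1 M + a2 M) * b) • ω := calc
          (g * k * b) • ω = (g * (k * b)) • ω := by rw [mul_assoc]
          _ = (x M ^ a1 M * (k * b)) • ω := e1
          _ = x M ^ a1 M • ((k * b) • ω) := mul_smul _ _ _
          _ = x M ^ a1 M • ((x M ^ a2 M * b) • ω) := by rw [e2]
          _ = (x M ^ (a1 M + a2 M) * b) • ω := by rw [← mul_smul, zpow_add, mul_assoc]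
        have l2 : (k * g * b) • ω = (x M ^ (a2 M + a1 M) * b) • ω := calc
          (k * g * b) • ω = (k * (g * b)) • ω := by rw [mul_assoc]
          _ = (x M ^ a2 M * (g * b)) • ω := e3
          _ = x M ^ a2 M • ((g * b) • ω) := mul_smul _ _ _
          _ = x M ^ a2 M • ((x M ^ a1 M * b) • ω) := by rw [e4]
          _ = (x M ^ (a2 M + a1 M) * b) • ω := by rw [← mul_smul, zpow_add, mul_assoc]
        rw [l1, l2, add_comm]
      · rw [mul_assoc, mul_smul, hRfix hk hb, ← mul_smul, hRfix hg hb, mul_assoc, mul_smul k,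
          hRfix hg hb, ← mul_smul, hRfix hk hb]
    have h1 : (k * g)⁻¹ * (g * k) = 1 := by
      apply hfaith
      intro a
      obtain ⟨b, rfl⟩ := htr a
      rw [mul_smul, ← mul_smul (g * k), hcomm, ← mul_smul]
      congr 1
      group
    have h2 := inv_mul_eq_one.1 h1
    exact h2.symm
  obtain ⟨m, hm⟩ := hprop _ claim2
  obtain ⟨n0, hn0⟩ := hrec (e + m + 1)
  obtain ⟨hrN, hW⟩ := hn0 (max L0 n0) (le_max_right _ _)
  set N := max L0 n0 with hN
  have hf : ∀ M, ∃ y ∈ R S N, ∀ s ∈ S N,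
      (y * s) • ω = (x M ^ (p ^ (rt p (S N) (x M) + (N - (e + m + 1)))) * s) • ω := by
    intro M
    obtain ⟨g, hg, hgK⟩ := hW _ (rt_mem hG (S N) (x M))
    refine ⟨g⁻¹, inv_mem hg, fun s hs => ?_⟩
    have hgs : g⁻¹ * s ∈ S N := mul_mem (inv_mem (h.R_le _ hg)) hs
    have h1 := (hstab _).1 (hgK _ hgs)
    rw [mul_assoc, mul_smul, inv_smul_eq_iff] at h1
    rw [← h1, pow_add, pow_mul]
    congr 1
    group
  choose f hfR hf using hf
  obtain ⟨y, hyR, hy⟩ : ∃ y ∈ R S N, ∀ᶠ M in (U : Filter ℕ), f M = y := by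
    have h1 : (R S N : Set G) ∈ (U.map f) := by
      rw [Ultrafilter.mem_map]
      exact Filter.Eventually.of_forall hfR
    obtain ⟨y, hy, hyU⟩ := Ultrafilter.eq_pure_of_finite_mem (hfinR N) h1
    refine ⟨y, hy, ?_⟩
    have h2 : ({y} : Set G) ∈ U.map f := by
      rw [hyU]
      exact Ultrafilter.mem_pure.2 rfl
    rw [Ultrafilter.mem_map] at h2
    exact h2
  have hyY : y ∈ Subgroup.closure Y := by
    apply Subgroup.subset_closure
    refine ⟨N, le_max_left _ _, hyR,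
      fun M => ((p ^ (rt p (S N) (x M) + (N - (e + m + 1))) : ℕ) : ℤ), ?_⟩
    refine hy.mono fun M hM s hs => ?_
    rw [← hM, hf M s hs, zpow_natCast]
  have hym : y ∈ S m := hm hyY
  have hlarge : ∀ᶠ M in (U : Filter ℕ), N ≤ M := by
    have h1 : ∀ᶠ M in Filter.cofinite, N ≤ M := by
      rw [Nat.cofinite_eq_atTop]
      exact Filter.eventually_ge_atTop N
    exact Filter.hyperfilter_le_cofinite h1
  obtain ⟨M, hM1, hM2⟩ := (hy.and hlarge).exists
  have h1 := hf M 1 (one_mem _)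
  rw [hM1, mul_one, mul_one] at h1
  have h2 : y⁻¹ * x M ^ (p ^ (rt p (S N) (x M) + (N - (e + m + 1)))) ∈ S m := by
    apply h.mono (Nat.zero_le m)
    rw [hstab, mul_smul, ← h1, inv_smul_smul]
  have h3 : x M ^ (p ^ (rt p (S N) (x M) + (N - (e + m + 1)))) ∈ S m := by
    have := mul_mem hym h2
    rwa [mul_inv_cancel_left] at this
  have h4 := rt_le h3
  have h5 := hx M N hM2
  have h6 := h.rt_sub hG 0 m (x M)
  rw [Nat.zero_add] at h6
  omega

end Pool.Agent.Helper826.Barely
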