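import Mathlib

set_option autoImplicit false

namespace Pool.Agent.Helper826.Barely

theorem exists_step_aux1 {G : Type*} [Group G] {p : ℕ} [Fact p.Prime] (hp : IsPGroup p G)
    (S : Subgroup G) (hne : S ≠ ⊤) (hfi : S.FiniteIndex) :
    ∃ g : G, g ∉ S ∧ ∀ s ∈ S, g⁻¹ * s * g ∈ S := by
  obtain ⟨n, hn⟩ := hp.index S
  have hn0 : n ≠ 0 := by
    rintro rfl
    rw [pow_zero, Subgroup.index_eq_one] at hn
    exact hne hn
  have hdvd : p ∣ Nat.card (G ⧸ S) := by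
    rw [← Subgroup.index, hn]
    exact dvd_pow_self p hn0
  have hfin : Finite (G ⧸ S) := inferInstance
  have hfix : ((1 : G) : G ⧸ S) ∈ MulAction.fixedPoints S (G ⧸ S) := by
    intro s
    show (((s : G) * 1 : G) : G ⧸ S) = ((1 : G) : G ⧸ S)
    rw [QuotientGroup.eq]
    simpa using inv_mem s.2
  obtain ⟨b, hb, hb1⟩ := (hp.to_subgroup S).exists_fixed_point_of_prime_dvd_card_of_fixed_point
    (G ⧸ S) hdvd hfix
  obtain ⟨g, rfl⟩ := QuotientGroup.mk_surjective b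
  refine ⟨g, ?_, ?_⟩
  · intro hg
    apply hb1
    rw [QuotientGroup.eq]
    simpa using hg
  · intro s hs
    have h1 := hb ⟨s⁻¹, inv_mem hs⟩
    have h2 : ((s⁻¹ * g : G) : G ⧸ S) = (g : G ⧸ S) := h1
    rw [QuotientGroup.eq] at h2
    simpa [mul_assoc] using h2

theorem exists_step_pow {G : Type*} [Group G] (S : Subgroup G) (g : G)
    (h : ∀ s ∈ S, g⁻¹ * s * g ∈ S) (n : ℕ) : ∀ s ∈ S, (g ^ n)⁻¹ * s * g ^ n ∈ S := by
  induction n with
  | zero => intro s hs; simpa using hs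
  | succ n ih =>
    intro s hs
    have h1 := h _ (ih s hs)
    have h2 : (g ^ (n + 1))⁻¹ * s * g ^ (n + 1) = g⁻¹ * ((g ^ n)⁻¹ * s * g ^ n) * g := by
      rw [pow_succ]; group
    rw [h2]; exact h1

theorem exists_step_aux2 {G : Type*} [Group G] {p : ℕ} [Fact p.Prime] (hp : IsPGroup p G)
    (S : Subgroup G) (hne : S ≠ ⊤) (hfi : S.FiniteIndex) :
    ∃ v : G, v ∉ S ∧ v ^ p ∈ S ∧ (∀ s ∈ S, v⁻¹ * s * v ∈ S) ∧ ∀ s ∈ S, v * s * v⁻¹ ∈ S := by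
  classical
  obtain ⟨g, hg, hc⟩ := exists_step_aux1 hp S hne hfi
  have hex : ∃ a : ℕ, g ^ (p ^ a) ∈ S := by
    obtain ⟨k, hk⟩ := hp g
    exact ⟨k, by rw [hk]; exact one_mem _⟩
  have hmin := Nat.find_spec hex
  have hpos : Nat.find hex ≠ 0 := by
    intro h0
    rw [h0] at hmin
    apply hg
    simpa using hmin
  obtain ⟨a, ha⟩ := Nat.exists_eq_succ_of_ne_zero hpos
  have hna : g ^ (p ^ a) ∉ S := Nat.find_min hex (by omega)
  refine ⟨g ^ (p ^ a), hna, ?_, exists_step_pow S g hc _, ?_⟩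
  · rw [← pow_mul, ← pow_succ]
    rw [ha] at hmin
    exact hmin
  · have hc' := exists_step_pow S g hc (p ^ a)
    generalize g ^ (p ^ a) = v at hc'
    obtain ⟨k, hk⟩ := hp v
    have hpk : 0 < p ^ k := pow_pos (Fact.out : p.Prime).pos k
    have hinv : v ^ (p ^ k - 1) = v⁻¹ := by
      rw [eq_inv_iff_mul_eq_one, ← pow_succ, Nat.sub_add_cancel hpk, hk]
    intro s hs
    have h1 := exists_step_pow S v hc' (p ^ k - 1) s hs
    rw [hinv, inv_inv] at h1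
    exact h1

/-- the top case -/
theorem exists_step_top {G : Type*} [Group G] {p : ℕ} [Fact p.Prime] (hp : IsPGroup p G)
    (S : Subgroup G) (hne : S ≠ ⊤) (hfi : S.FiniteIndex) :
    ∃ T : Subgroup G, S < T ∧ S.relIndex T = p ∧
      (∀ a ∈ T, ∀ b ∈ S, a⁻¹ * b * a ∈ S) ∧
      (∀ v ∈ T, v ∉ S → ∀ b ∈ T, ∃ i : ℕ, ∃ c ∈ S, b = v ^ i * c) ∧
      (∀ v ∈ T, v ^ p ∈ S) ∧
      (∀ a ∈ T, ∀ b ∈ T, a⁻¹ * b * a * b⁻¹ ∈ S) := by
  obtain ⟨v, hvS, hvp, hv1, hv2⟩ := exists_step_aux2 hp S hne hfi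
  obtain ⟨k, hk⟩ := hp v
  have hpk : 0 < p ^ k := pow_pos (Fact.out : p.Prime).pos k
  have hvi : ∀ i : ℕ, (v ^ i)⁻¹ = v ^ ((p ^ k - 1) * i) := by
    intro i
    rw [pow_mul]
    have hinv : v ^ (p ^ k - 1) = v⁻¹ := by
      rw [eq_inv_iff_mul_eq_one, ← pow_succ, Nat.sub_add_cancel hpk, hk]
    rw [hinv, inv_pow]
  have hP1 := exists_step_pow S v hv1
  have hP2 : ∀ n : ℕ, ∀ s ∈ S, v ^ n * s * (v ^ n)⁻¹ ∈ S := by
    intro n s hs
    have h := exists_step_pow S v⁻¹ (fun s hs => by simpa using hv2 s hs) n s hs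
    simpa using h
  let T : Subgroup G :=
    { carrier := {x | ∃ i : ℕ, ∃ c ∈ S, x = v ^ i * c}
      mul_mem' := by
        rintro x y ⟨i, c, hc, rfl⟩ ⟨j, d, hd, rfl⟩
        refine ⟨i + j, (v ^ j)⁻¹ * c * v ^ j * d, mul_mem (hP1 j c hc) hd, ?_⟩
        rw [pow_add]; group
      one_mem' := ⟨0, 1, one_mem _, by simp⟩
      inv_mem' := by
        rintro x ⟨i, c, hc, rfl⟩
        refine ⟨(p ^ k - 1) * i, v ^ i * c⁻¹ * (v ^ i)⁻¹, hP2 i _ (inv_mem hc), ?_⟩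
        rw [← hvi i]; group }
  have hTmem : ∀ x, x ∈ T ↔ ∃ i : ℕ, ∃ c ∈ S, x = v ^ i * c := fun x => Iff.rfl
  have hST : S ≤ T := fun c hc => ⟨0, c, hc, by simp⟩
  have hvT : v ∈ T := ⟨1, 1, one_mem _, by simp⟩
  have hnormal : ∀ a ∈ T, ∀ b ∈ S, a⁻¹ * b * a ∈ S := by
    rintro a ⟨i, c, hc, rfl⟩ b hb
    have h1 : (v ^ i * c)⁻¹ * b * (v ^ i * c) = c⁻¹ * ((v ^ i)⁻¹ * b * v ^ i) * c := by group
    rw [h1]
    exact mul_mem (mul_mem (inv_mem hc) (hP1 i b hb)) hc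
  have hN : (S.subgroupOf T).Normal := by
    constructor
    intro n hn g
    rw [Subgroup.mem_subgroupOf] at hn ⊢
    have h := hnormal (g⁻¹ : T) (g⁻¹ : T).2 n hn
    simpa using h
  -- the quotient
  have hgen : ∀ x : T ⧸ S.subgroupOf T, ∃ i : ℕ, x = ((⟨v, hvT⟩ : T) : T ⧸ S.subgroupOf T) ^ i := by
    intro x
    obtain ⟨⟨y, hy⟩, rfl⟩ := QuotientGroup.mk_surjective x
    obtain ⟨i, c, hc, hyc⟩ := hy
    refine ⟨i, ?_⟩
    rw [← QuotientGroup.mk_pow, QuotientGroup.eq, Subgroup.mem_subgroupOf]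
    show y⁻¹ * v ^ i ∈ S
    rw [hyc]
    have h1 : (v ^ i * c)⁻¹ * v ^ i = c⁻¹ := by group
    rw [h1]; exact inv_mem hc
  have hord : orderOf ((⟨v, hvT⟩ : T) : T ⧸ S.subgroupOf T) = p := by
    apply orderOf_eq_prime
    · rw [← QuotientGroup.mk_pow, QuotientGroup.eq_one_iff, Subgroup.mem_subgroupOf]
      exact hvp
    · rw [Ne, QuotientGroup.eq_one_iff, Subgroup.mem_subgroupOf]
      exact hvS
  have hcard : Nat.card (T ⧸ S.subgroupOf T) = p := by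
    rw [← hord]
    symm
    apply orderOf_eq_card_of_forall_mem_zpowers
    intro x
    obtain ⟨i, hi⟩ := hgen x
    rw [hi]
    exact ⟨i, by simp⟩
  refine ⟨T, lt_of_le_of_ne hST (fun h => hvS (h ▸ hvT)), hcard, hnormal, ?_, ?_, ?_⟩
  · intro w hw hwS b hb
    have h1 : ((⟨w, hw⟩ : T) : T ⧸ S.subgroupOf T) ≠ 1 := by
      rw [Ne, QuotientGroup.eq_one_iff, Subgroup.mem_subgroupOf]
      exact hwS
    have h2 : ((⟨b, hb⟩ : T) : T ⧸ S.subgroupOf T) ∈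
        Submonoid.powers ((⟨w, hw⟩ : T) : T ⧸ S.subgroupOf T) :=
      mem_powers_of_prime_card hcard h1
    obtain ⟨i, hi⟩ := h2
    refine ⟨i, (w ^ i)⁻¹ * b, ?_, by group⟩
    have h3 : (((⟨w, hw⟩ : T) ^ i : T) : T ⧸ S.subgroupOf T) =
        ((⟨b, hb⟩ : T) : T ⧸ S.subgroupOf T) := hi
    rw [QuotientGroup.eq, Subgroup.mem_subgroupOf] at h3
    exact h3
  · intro w hw
    have h1 : ((⟨w, hw⟩ : T) : T ⧸ S.subgroupOf T) ^ p = 1 := by
      rw [← hcard]; exact pow_card_eq_one'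
    rw [← QuotientGroup.mk_pow, QuotientGroup.eq_one_iff, Subgroup.mem_subgroupOf] at h1
    exact h1
  · intro a ha b hb
    obtain ⟨i, hi⟩ := hgen ((⟨a, ha⟩ : T) : T ⧸ S.subgroupOf T)
    obtain ⟨j, hj⟩ := hgen ((⟨b, hb⟩ : T) : T ⧸ S.subgroupOf T)
    have h1 : (((⟨a, ha⟩ : T)⁻¹ * (⟨b, hb⟩ : T) * (⟨a, ha⟩ : T) * (⟨b, hb⟩ : T)⁻¹ : T) :
        T ⧸ S.subgroupOf T) = 1 := by
      rw [QuotientGroup.mk_mul, QuotientGroup.mk_mul, QuotientGroup.mk_mul, QuotientGroup.mk_inv,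
        QuotientGroup.mk_inv, hi, hj]
      group
    rw [QuotientGroup.eq_one_iff, Subgroup.mem_subgroupOf] at h1
    exact h1

/-- Between a subgroup `S` and a bigger `U` with finite relative index in a `p`-group there is
`T` containing `S` as a normal subgroup with cyclic quotient of order `p`. -/
theorem exists_step {G : Type*} [Group G] {p : ℕ} [Fact p.Prime] (hp : IsPGroup p G)
    (S U : Subgroup G) (hlt : S < U) (hfi : S.relIndex U ≠ 0) :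
    ∃ T : Subgroup G, S < T ∧ T ≤ U ∧ S.relIndex T = p ∧
      (∀ a ∈ T, ∀ b ∈ S, a⁻¹ * b * a ∈ S) ∧
      (∀ v ∈ T, v ∉ S → ∀ b ∈ T, ∃ i : ℕ, ∃ c ∈ S, b = v ^ i * c) ∧
      (∀ v ∈ T, v ^ p ∈ S) ∧
      (∀ a ∈ T, ∀ b ∈ T, a⁻¹ * b * a * b⁻¹ ∈ S) := by
  have hne : S.subgroupOf U ≠ ⊤ := by
    intro h
    rw [Subgroup.subgroupOf_eq_top] at h
    exact absurd (lt_of_lt_of_le hlt h) (lt_irrefl _)
  obtain ⟨T, h1, h2, h3, h4, h5, h6⟩ := exists_step_top (hp.to_subgroup U) (S.subgroupOf U) hne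
    ⟨hfi⟩
  have hTU : T.map U.subtype ≤ U := by
    rintro x ⟨y, _, rfl⟩; exact y.2
  have hSU : S ≤ U := hlt.le
  have hmem : ∀ x (hx : x ∈ U), x ∈ T.map U.subtype ↔ (⟨x, hx⟩ : U) ∈ T := by
    intro x hx
    constructor
    · rintro ⟨y, hy, hyx⟩
      have : y = ⟨x, hx⟩ := Subtype.ext hyx
      rw [← this]; exact hy
    · intro h
      exact ⟨_, h, rfl⟩
  have hST : S ≤ T.map U.subtype := by
    intro x hx
    rw [hmem x (hSU hx)]
    exact h1.le (Subgroup.mem_subgroupOf.2 hx)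
  refine ⟨T.map U.subtype, ?_, hTU, ?_, ?_, ?_, ?_, ?_⟩
  · refine lt_of_le_of_ne hST ?_
    intro heq
    apply h1.ne
    apply le_antisymm h1.le
    intro y hy
    rw [Subgroup.mem_subgroupOf]
    have : (y : G) ∈ T.map U.subtype := ⟨y, hy, rfl⟩
    rw [← heq] at this
    exact this
  · have h7 := Subgroup.relIndex_map_map_of_injective (S.subgroupOf U) T U.subtype_injective
    rw [Subgroup.subgroupOf_map_subtype, inf_of_le_left hSU] at h7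
    rw [h7]; exact h2
  · intro a ha b hb
    exact h3 ⟨a, hTU ha⟩ ((hmem a _).1 ha) ⟨b, hSU hb⟩ hb
  · intro w hw hwS b hb
    obtain ⟨i, c, hc, hbc⟩ := h4 ⟨w, hTU hw⟩ ((hmem w _).1 hw) hwS ⟨b, hTU hb⟩ ((hmem b _).1 hb)
    exact ⟨i, c, hc, congrArg Subtype.val hbc⟩
  · intro w hw
    exact h5 ⟨w, hTU hw⟩ ((hmem w _).1 hw)
  · intro a ha b hb
    exact h6 ⟨a, hTU ha⟩ ((hmem a _).1 ha) ⟨b, hTU hb⟩ ((hmem b _).1 hb)

end Pool.Agent.Helper826.Barely
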