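import Pool.Agent.Helper826.Barely.Cofinal
import Pool.Agent.Helper826.Barely.Coatom
import Pool.Agent.Helper826.Barely.Central
import Pool.Agent.Helper826.Barely.Step

/-!
Finitary transitive `p`-groups with long cycles are not barely transitive.
-/

set_option autoImplicit false

namespace Pool.Agent.Helper826.Barely

variable {G Ω : Type*} [Group G] [MulAction G Ω] {p : ℕ}

theorem fixer_finite (hfaith : ∀ g : G, (∀ a : Ω, g • a = a) → g = 1) (F : Finset Ω) :
    {g : G | ∀ a, a ∉ F → g • a = a}.Finite := by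
  classical
  let X : Set G := {g : G | ∀ a, a ∉ F → g • a = a}
  have hmem : ∀ g : X, ∀ a : F, (g : G) • (a : Ω) ∈ F := by
    intro g a
    by_contra h
    have h1 := g.2 _ h
    have h2 := smul_left_cancel _ h1
    rw [h2] at h
    exact h a.2
  let f : X → (F → F) := fun g a => ⟨(g : G) • (a : Ω), hmem g a⟩
  have hf : Function.Injective f := by
    intro g g' hgg
    apply Subtype.ext
    have h1 : (g' : G)⁻¹ * (g : G) = 1 := by
      apply hfaith
      intro a
      by_cases ha : a ∈ F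
      · have h2 := congrFun hgg ⟨a, ha⟩
        have h3 : (g : G) • a = (g' : G) • a := congrArg Subtype.val h2
        rw [mul_smul, h3, inv_smul_smul]
      · rw [mul_smul, g.2 a ha, inv_smul_eq_iff, g'.2 a ha]
    exact (inv_mul_eq_one.1 h1).symm
  have hfin : Finite X := Finite.of_injective f hf
  exact Set.toFinite X

/-- The subgroup of elements supported on `F`. -/
def fixer (F : Finset Ω) : Subgroup G where
  carrier := {g : G | ∀ a, a ∉ F → g • a = a}
  one_mem' := fun a _ => one_smul G a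
  mul_mem' := by
    intro g k hg hk a ha
    rw [mul_smul, hk a ha, hg a ha]
  inv_mem' := by
    intro g hg a ha
    rw [inv_smul_eq_iff, hg a ha]

theorem locally_finite (hfaith : ∀ g : G, (∀ a : Ω, g • a = a) → g = 1)
    (hfin : ∀ g : G, {a : Ω | g • a ≠ a}.Finite) (A : Finset G) :
    Finite (Subgroup.closure (A : Set G)) := by
  classical
  let F : Finset Ω := A.biUnion (fun g => (hfin g).toFinset)
  have h1 : Subgroup.closure (A : Set G) ≤ fixer F := by
    rw [Subgroup.closure_le]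
    intro g hg a ha
    by_contra h2
    apply ha
    exact Finset.mem_biUnion.2 ⟨g, hg, (hfin g).mem_toFinset.2 h2⟩
  have h2 : ((Subgroup.closure (A : Set G) : Subgroup G) : Set G).Finite :=
    (fixer_finite hfaith F).subset h1
  exact h2.to_subtype

theorem not_coatom [Fact p.Prime] [Infinite Ω] (hG : IsPGroup p G)
    (hfaith : ∀ g : G, (∀ a : Ω, g • a = a) → g = 1)
    (htr : ∀ a b : Ω, ∃ g : G, g • a = b)
    (hfin : ∀ g : G, {a : Ω | g • a ≠ a}.Finite)
    (hH : ∀ H : Subgroup G, H ≠ ⊤ → ∀ a : Ω, (MulAction.orbit H a).Finite)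
    (M : Subgroup G) : ¬ IsCoatom M := by
  intro hM
  obtain ⟨-, hfi⟩ := coatom_normal_finiteIndex hG (locally_finite hfaith hfin) M hM
  have := hfi
  have hq : Finite (G ⧸ M) := inferInstance
  obtain ⟨ω⟩ : Nonempty Ω := inferInstance
  have h1 : (⋃ q : G ⧸ M, MulAction.orbit M (q.out⁻¹ • ω)).Finite :=
    Set.finite_iUnion (fun q => hH M hM.1 _)
  have h2 : (⋃ q : G ⧸ M, MulAction.orbit M (q.out⁻¹ • ω)) = Set.univ := by
    rw [Set.eq_univ_iff_forall]
    intro b
    obtain ⟨g, rfl⟩ := htr ω b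
    refine Set.mem_iUnion.2 ⟨((g⁻¹ : G) : G ⧸ M), ?_⟩
    have h3 : (((g⁻¹ : G) : G ⧸ M).out)⁻¹ * g⁻¹ ∈ M := by
      rw [← QuotientGroup.eq]
      exact QuotientGroup.out_eq' _
    have h4 := inv_mem h3
    refine ⟨⟨_, h4⟩, ?_⟩
    change (((((g⁻¹ : G) : G ⧸ M).out)⁻¹ * g⁻¹)⁻¹ : G) • ((((g⁻¹ : G) : G ⧸ M).out)⁻¹ • ω) = g • ω
    rw [← mul_smul]
    congr 1
    group
  rw [h2] at h1
  exact Set.infinite_univ h1

theorem relIndex_stab (ω : Ω) (U : Subgroup G) :
    (MulAction.stabilizer G ω).relIndex U = (MulAction.orbit U ω).ncard := by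
  rw [← MulAction.index_stabilizer]
  rfl

/-- One step of the chain. -/
theorem chain_step [Fact p.Prime] [Infinite Ω] (hG : IsPGroup p G)
    (hfaith : ∀ g : G, (∀ a : Ω, g • a = a) → g = 1)
    (htr : ∀ a b : Ω, ∃ g : G, g • a = b)
    (hfin : ∀ g : G, {a : Ω | g • a ≠ a}.Finite)
    (hH : ∀ H : Subgroup G, H ≠ ⊤ → ∀ a : Ω, (MulAction.orbit H a).Finite)
    (ω : Ω) (S : Subgroup G) (hS : MulAction.stabilizer G ω ≤ S) (hStop : S ≠ ⊤) :
    ∃ T : Subgroup G, S ≤ T ∧ T ≠ ⊤ ∧ S.relIndex T = p ∧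
      (∀ a ∈ T, ∀ b ∈ S, a⁻¹ * b * a ∈ S) ∧
      (∀ v ∈ T, v ∉ S → ∀ b ∈ T, ∃ i : ℕ, ∃ c ∈ S, b = v ^ i * c) ∧
      (∀ v ∈ T, v ^ p ∈ S) ∧
      (∀ a ∈ T, ∀ b ∈ T, a⁻¹ * b * a * b⁻¹ ∈ S) := by
  have h1 := not_coatom hG hfaith htr hfin hH S
  unfold IsCoatom at h1
  push Not at h1
  obtain ⟨U, hSU, hU⟩ := h1 hStop
  have h2 : S.relIndex U ≠ 0 := by
    have h3 : (MulAction.stabilizer G ω).relIndex U ≠ 0 := by
      rw [relIndex_stab]
      intro h4
      have h5 := (Set.ncard_eq_zero (hH U hU ω)).1 h4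
      have h6 : ω ∈ MulAction.orbit U ω := MulAction.mem_orbit_self ω
      rw [h5] at h6
      exact h6
    intro h4
    have h5 := Subgroup.relIndex_dvd_of_le_left U hS
    rw [h4] at h5
    exact h3 (Nat.eq_zero_of_zero_dvd h5)
  obtain ⟨T, hT1, hT2, hT⟩ := exists_step hG S U hSU h2
  exact ⟨T, hT1.le, fun h => hU (top_le_iff.1 (h ▸ hT2)), hT⟩

theorem exists_chain [Fact p.Prime] [Infinite Ω] (hG : IsPGroup p G)
    (hfaith : ∀ g : G, (∀ a : Ω, g • a = a) → g = 1)
    (htr : ∀ a b : Ω, ∃ g : G, g • a = b)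
    (hfin : ∀ g : G, {a : Ω | g • a ≠ a}.Finite)
    (hH : ∀ H : Subgroup G, H ≠ ⊤ → ∀ a : Ω, (MulAction.orbit H a).Finite)
    (ω : Ω) : ∃ S : ℕ → Subgroup G, IsChain' p S ∧ S 0 = MulAction.stabilizer G ω ∧
      (∀ k, S k ≠ ⊤) ∧ (∀ k, (MulAction.orbit (S k) ω).ncard = p ^ k) ∧
      (∀ k, (MulAction.orbit (S k) ω).Finite) ∧ (∀ k, (S 0).relIndex (S k) = p ^ k) := by
  have hp1 : 1 < p := (Fact.out : p.Prime).one_lt
  have h0 : MulAction.stabilizer G ω ≠ ⊤ := by
    intro h
    obtain ⟨b, hb⟩ := exists_ne ω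
    obtain ⟨g, hg⟩ := htr ω b
    have h1 : g ∈ MulAction.stabilizer G ω := by rw [h]; trivial
    exact hb (hg.symm.trans (MulAction.mem_stabilizer_iff.1 h1))
  let X := {S : Subgroup G // MulAction.stabilizer G ω ≤ S ∧ S ≠ ⊤}
  have hstep : ∀ S : X, ∃ T : X, (S : Subgroup G) ≤ T ∧ (S : Subgroup G).relIndex T = p ∧
      (∀ a ∈ (T : Subgroup G), ∀ b ∈ (S : Subgroup G), a⁻¹ * b * a ∈ (S : Subgroup G)) ∧
      (∀ v ∈ (T : Subgroup G), v ∉ (S : Subgroup G) → ∀ b ∈ (T : Subgroup G),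
        ∃ i : ℕ, ∃ c ∈ (S : Subgroup G), b = v ^ i * c) ∧
      (∀ v ∈ (T : Subgroup G), v ^ p ∈ (S : Subgroup G)) ∧
      (∀ a ∈ (T : Subgroup G), ∀ b ∈ (T : Subgroup G), a⁻¹ * b * a * b⁻¹ ∈ (S : Subgroup G)) := by
    intro S
    obtain ⟨T, hST, hT, hrest⟩ := chain_step hG hfaith htr hfin hH ω S S.2.1 S.2.2
    exact ⟨⟨T, S.2.1.trans hST, hT⟩, hST, hrest⟩
  choose nxt hnxt using hstep
  let S : ℕ → X := fun k => Nat.rec (motive := fun _ => X)
    (⟨MulAction.stabilizer G ω, le_rfl, h0⟩ : X) (fun _ s => nxt s) k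
  have hS0 : (S 0 : Subgroup G) = MulAction.stabilizer G ω := rfl
  have hSs : ∀ k, S (k + 1) = nxt (S k) := fun k => rfl
  have hidx : ∀ k, (MulAction.stabilizer G ω).relIndex (S k : Subgroup G) = p ^ k := by
    intro k
    induction k with
    | zero => rw [hS0, Subgroup.relIndex_self, pow_zero]
    | succ k ih =>
      rw [← Subgroup.relIndex_mul_relIndex _ (S k : Subgroup G) _ (S k).2.1
        (by rw [hSs]; exact (hnxt (S k)).1), ih, hSs, (hnxt (S k)).2.1, pow_succ]
  have hmono : Monotone (fun k => (S k : Subgroup G)) :=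
    monotone_nat_of_le_succ (fun k => by
      rw [hSs]; exact (hnxt (S k)).1)
  have hcard : ∀ k, (MulAction.orbit (S k : Subgroup G) ω).ncard = p ^ k := by
    intro k
    rw [← relIndex_stab, hidx]
  have hfinO : ∀ k, (MulAction.orbit (S k : Subgroup G) ω).Finite :=
    fun k => hH _ (S k).2.2 ω
  have hunion : (⨆ k, (S k : Subgroup G)) = ⊤ := by
    by_contra hne
    have h1 := hH _ hne ω
    obtain ⟨k, hk⟩ : ∃ k, (MulAction.orbit (⨆ k, (S k : Subgroup G) : Subgroup G) ω).ncard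
        < p ^ k := ⟨_, Nat.lt_pow_self hp1⟩
    have h2 : MulAction.orbit (S k : Subgroup G) ω
        ⊆ MulAction.orbit (⨆ k, (S k : Subgroup G) : Subgroup G) ω := by
      rintro _ ⟨⟨s, hs⟩, rfl⟩
      exact ⟨⟨s, (le_iSup (fun k => (S k : Subgroup G)) k) hs⟩, rfl⟩
    have h3 := Set.ncard_le_ncard h2 h1
    rw [hcard] at h3
    omega
  refine ⟨fun k => (S k : Subgroup G), ⟨?_, ?_, ?_, ?_, ?_, ?_⟩, hS0, fun k => (S k).2.2, hcard,
    hfinO, hidx⟩
  · intro k
    exact (hnxt (S k)).1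
  · intro k
    exact (hnxt (S k)).2.2.1
  · intro k
    exact (hnxt (S k)).2.2.2.1
  · intro k
    exact (hnxt (S k)).2.2.2.2.1
  · intro k
    exact (hnxt (S k)).2.2.2.2.2
  · intro g
    have h1 : g ∈ (⨆ k, (S k : Subgroup G)) := by rw [hunion]; trivial
    exact (Subgroup.mem_iSup_of_directed (hmono.directed_le)).1 h1

theorem main [Fact p.Prime] [Infinite Ω] (hG : IsPGroup p G)
    (hfaith : ∀ g : G, (∀ a : Ω, g • a = a) → g = 1)
    (htr : ∀ a b : Ω, ∃ g : G, g • a = b)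
    (hfin : ∀ g : G, {a : Ω | g • a ≠ a}.Finite)
    (hr : ∃ r : ℕ, ∀ F : Finset Ω, ∃ B : Finset Ω, F ⊆ B ∧
      (∀ g : G, (∃ b ∈ B, g • b ∈ B) → ∀ b ∈ B, g • b ∈ B) ∧
      ∃ x : G, ∃ a : Ω, ∃ F' : Finset Ω, (∀ b ∈ F', b ∈ B ∧ ∃ n : ℤ, x ^ n • a = b) ∧
        B.card ≤ r * F'.card) :
    ∃ H : Subgroup G, H ≠ ⊤ ∧ ∃ a : Ω, (MulAction.orbit H a).Infinite := by
  classical
  by_contra hcon
  push Not at hcon
  have hH : ∀ H : Subgroup G, H ≠ ⊤ → ∀ a : Ω, (MulAction.orbit H a).Finite := by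
    intro H hne a
    exact hcon H hne a
  have hp : p.Prime := Fact.out
  obtain ⟨ω⟩ : Nonempty Ω := inferInstance
  obtain ⟨S, hch, hS0, hStop, hcard, hfinO, hidx⟩ := exists_chain hG hfaith htr hfin hH ω
  have hstab : ∀ g : G, g ∈ S 0 ↔ g • ω = ω := by
    intro g
    rw [hS0, MulAction.mem_stabilizer_iff]
  have hmemO : ∀ k a, a ∈ MulAction.orbit (S k) ω ↔ ∃ s ∈ S k, s • ω = a := by
    intro k a
    constructor
    · rintro ⟨⟨s, hs⟩, rfl⟩
      exact ⟨s, hs, rfl⟩
    · rintro ⟨s, hs, rfl⟩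
      exact ⟨⟨s, hs⟩, rfl⟩
  have hmemS : ∀ k (b : G), b • ω ∈ MulAction.orbit (S k) ω ↔ b ∈ S k := by
    intro k b
    rw [hmemO]
    constructor
    · rintro ⟨s, hs, hsb⟩
      have h1 : (s⁻¹ * b) • ω = ω := by rw [mul_smul, ← hsb, inv_smul_smul]
      have h2 := hch.mono (Nat.zero_le k) ((hstab _).2 h1)
      have := mul_mem hs h2
      rwa [mul_inv_cancel_left] at this
    · intro hb
      exact ⟨b, hb, rfl⟩
  -- a finite set of points lies in one block
  have hblock : ∀ F : Set Ω, F.Finite → ∃ k, F ⊆ MulAction.orbit (S k) ω := by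
    intro F hF
    induction F, hF using Set.Finite.induction_on with
    | empty => exact ⟨0, Set.empty_subset _⟩
    | @insert a F _ _ ih =>
      obtain ⟨k, hk⟩ := ih
      obtain ⟨g, rfl⟩ := htr ω a
      obtain ⟨m, hm⟩ := hch.union g
      refine ⟨max k m, ?_⟩
      intro b hb
      rcases Set.mem_insert_iff.1 hb with rfl | hb
      · exact (hmemS _ _).2 (hch.mono (le_max_right _ _) hm)
      · obtain ⟨s, hs, rfl⟩ := (hmemO _ _).1 (hk hb)
        exact (hmemS _ _).2 (hch.mono (le_max_left _ _) hs)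
  have hR : ∀ g : G, ∃ M, g ∈ R S M := by
    intro g
    obtain ⟨k, hk⟩ := hblock _ (hfin g)
    refine ⟨k, fun b hb => ?_⟩
    rw [hstab, mul_smul, mul_smul, inv_smul_eq_iff]
    by_contra h1
    exact hb ((hmemS k b).1 (hk h1))
  have hfinR : ∀ M, (R S M : Set G).Finite := by
    intro M
    refine (fixer_finite hfaith (hfinO M).toFinset).subset ?_
    intro g hg a ha
    obtain ⟨b, rfl⟩ := htr ω a
    have hb : b ∉ S M := by
      intro h1
      exact ha ((hfinO M).mem_toFinset.2 ((hmemS M b).2 h1))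
    have h1 := (hstab _).1 (hg b hb)
    rw [mul_smul, mul_smul, inv_smul_eq_iff] at h1
    exact h1
  have hnc : ∃ g k : G, g * k ≠ k * g := by
    by_contra hab
    push Not at hab
    have hone : ∀ g : G, g = 1 := by
      intro g
      obtain ⟨a, ha⟩ : ∃ a, a ∉ {a : Ω | g • a ≠ a} := by
        by_contra h1
        push Not at h1
        have h2 : {a : Ω | g • a ≠ a} = Set.univ := Set.eq_univ_of_forall h1
        have h3 := hfin g
        rw [h2] at h3
        exact Set.infinite_univ h3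
      have ha' : g • a = a := by
        by_contra h1
        exact ha h1
      apply hfaith
      intro b
      obtain ⟨k, rfl⟩ := htr a b
      rw [← mul_smul, hab, mul_smul, ha']
    obtain ⟨b, hb⟩ := exists_ne ω
    obtain ⟨g, hg⟩ := htr ω b
    rw [hone g, one_smul] at hg
    exact hb hg.symm
  have hprop : ∀ H : Subgroup G, H ≠ ⊤ → ∃ m, H ≤ S m := by
    intro H hne
    obtain ⟨m, hm⟩ := hblock _ (hH H hne ω)
    refine ⟨m, fun g hg => ?_⟩
    exact (hmemS m g).1 (hm ⟨⟨g, hg⟩, rfl⟩)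
  have hfi : ∀ M, (S 0).relIndex (S M) ≠ 0 := by
    intro M
    rw [hS0, relIndex_stab, hcard]
    exact (pow_pos hp.pos M).ne'
  have hgood : ∀ k0, ∃ k, k0 ≤ k ∧ ∃ M, IsChain'.Good S k M := by
    intro k0
    obtain ⟨g, hg⟩ : ∃ g, g ∉ S k0 := by
      by_contra h1
      push Not at h1
      exact hStop k0 (Subgroup.eq_top_iff' _ |>.2 h1)
    obtain ⟨M0, hM0⟩ := hR g
    set M := max M0 k0 with hM
    have hgM : g ∈ R S M := hch.R_mono (le_max_left _ _) hM0
    have hk0M : S k0 ≤ S M := hch.mono (le_max_right _ _)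
    have hKP : K S M k0 ≤ S M := by
      intro u hu
      have := hu 1 (one_mem _)
      simp only [inv_one, one_mul, mul_one] at this
      exact hk0M this
    have hKk : K S M k0 ≤ S k0 := by
      intro u hu
      have := hu 1 (one_mem _)
      simpa only [inv_one, one_mul, mul_one] using this
    have hKfi : (K S M k0).relIndex (S M) ≠ 0 := by
      have : Finite (MulAction.orbit (S M) ω) := (hfinO M).to_subtype
      have h1 : (MulAction.toPermHom (S M) (MulAction.orbit (S M) ω)).ker.FiniteIndex :=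
        Subgroup.finiteIndex_ker _
      have h2 : (MulAction.toPermHom (S M) (MulAction.orbit (S M) ω)).ker
          ≤ (K S M k0).subgroupOf (S M) := by
        intro u hu
        rw [Subgroup.mem_subgroupOf]
        intro a ha
        apply hch.mono (Nat.zero_le k0)
        rw [hstab]
        have h3 : (MulAction.toPermHom (S M) (MulAction.orbit (S M) ω)) u = 1 := hu
        have h4 := congrArg (fun f : Equiv.Perm (MulAction.orbit (S M) ω) =>
          ((f ⟨a • ω, (hmemS M a).2 ha⟩ : MulAction.orbit (S M) ω) : Ω)) h3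
        have h5 : (u : G) • a • ω = a • ω := h4
        rw [mul_smul, mul_smul, inv_smul_eq_iff]
        exact h5
      exact (Subgroup.finiteIndex_of_le h2).index_ne_zero
    obtain ⟨z, hz, hzK, hzc⟩ := exists_central hG (S M) (R S M) (K S M k0) hKP (hch.R_le M)
      (by
        intro a ha b hb c hc
        have h1 := hb (a * c) (mul_mem ha hc)
        have h2 : (a * c)⁻¹ * b * (a * c) = c⁻¹ * (a⁻¹ * b * a) * c := by group
        rwa [h2] at h1)
      (by
        intro a ha b hb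
        have := hch.R_conj (inv_mem ha) hb
        rwa [inv_inv] at this)
      hKfi
      (by
        intro h1
        exact hg (hKk (h1 hgM)))
    have hzk0 : z ∉ S k0 := by
      intro h1
      apply hzK
      intro a ha
      have h2 := mul_mem (hKk (hzc a ha)) h1
      rwa [inv_mul_cancel_right] at h2
    -- least level containing z
    have hex : ∃ k, z ∈ S k := hch.union z
    have hk1 : Nat.find hex ≠ 0 := by
      intro h1
      have h2 := Nat.find_spec hex
      rw [h1] at h2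
      exact hzk0 (hch.mono (Nat.zero_le _) h2)
    obtain ⟨k, hk⟩ := Nat.exists_eq_succ_of_ne_zero hk1
    have hzk1 : z ∈ S (k + 1) := by
      have := Nat.find_spec hex
      rwa [hk] at this
    have hzk : z ∉ S k := Nat.find_min hex (by omega)
    have hk0k : k0 ≤ k := by
      by_contra h1
      exact hzk0 (hch.mono (by omega) hzk1)
    refine ⟨k, hk0k, M, z, hz, hzk, fun a ha => ?_⟩
    have h1 : a⁻¹ * z * a * z⁻¹ ∈ S k := hch.mono hk0k (hKk (hzc a ha))
    refine ⟨?_, h1⟩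
    have h2 := mul_mem (hch.step k h1) hzk1
    rwa [inv_mul_cancel_right] at h2
  have hrec : ∀ r, ∃ n0, ∀ N, n0 ≤ N → r ≤ N ∧ IsChain'.W p S N 0 (N - r) := by
    intro r
    obtain ⟨n0, hn0⟩ := hch.recursion hp.pos hgood r
    refine ⟨n0, fun N hN => ?_⟩
    have := hn0 N hN N le_rfl 0 (hch.W_self N)
    rwa [Nat.zero_add] at this
  obtain ⟨r, hr⟩ := hr
  obtain ⟨e, he⟩ : ∃ e, r ≤ p ^ e := ⟨r, (Nat.lt_pow_self hp.one_lt).le⟩
  exact limit hp hG hch hstab (fun a => htr ω a) hfaith hR hfinR hnc hprop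
    (fun M => exists_long_block hp hG hch hstab hidx hfinO (fun a => htr ω a) he hr M) hrec

end Pool.Agent.Helper826.Barely
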