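import Pool.Agent.Helper826.Barely.Main

/-!
The theorem for permutation groups.
-/

set_option autoImplicit false

namespace Pool.Agent.Helper826.Barely

theorem perm_main (p : ℕ) (hp : p.Prime) (Ω : Type*) [Infinite Ω] (G : Subgroup (Equiv.Perm Ω))
    (hG : ∀ g ∈ G, ∃ n : ℕ, g ^ p ^ n = 1)
    (hfin : ∀ g ∈ G, {a : Ω | g a ≠ a}.Finite)
    (htr : ∀ a b : Ω, ∃ g ∈ G, g a = b)
    (r : ℕ)
    (hr : ∀ F : Set Ω, F.Finite → ∃ B : Set Ω, F ⊆ B ∧ B.Finite ∧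
      (∀ g ∈ G, ⇑g '' B = B ∨ Disjoint (⇑g '' B) B) ∧
      ∃ x ∈ G, ∃ a : Ω, B.ncard ≤ r * (B ∩ {b | ∃ n : ℤ, (x ^ n) a = b}).ncard) :
    ∃ H : Subgroup (Equiv.Perm Ω), H < G ∧ ∃ a : Ω, {b | ∃ h ∈ H, h a = b}.Infinite := by
  classical
  have : Fact p.Prime := ⟨hp⟩
  have hG' : IsPGroup p G := by
    intro g
    obtain ⟨n, hn⟩ := hG g g.2
    exact ⟨n, Subtype.ext (by simpa using hn)⟩
  obtain ⟨H, hH, a, ha⟩ := main (G := G) (Ω := Ω) (p := p) hG'
    (by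
      intro g hg
      apply Subtype.ext
      apply Equiv.ext
      intro a
      exact hg a)
    (by
      intro a b
      obtain ⟨g, hg, hab⟩ := htr a b
      exact ⟨⟨g, hg⟩, hab⟩)
    (by
      intro g
      exact hfin g g.2)
    (by
      refine ⟨r, fun F => ?_⟩
      obtain ⟨B, hFB, hBf, hBb, x, hx, a, hxa⟩ := hr F F.finite_toSet
      refine ⟨hBf.toFinset, ?_, ?_, ⟨x, hx⟩, a,
        (hBf.inter_of_left {b | ∃ n : ℤ, (x ^ n) a = b}).toFinset, ?_, ?_⟩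
      · intro b hb
        exact hBf.mem_toFinset.2 (hFB hb)
      · rintro g ⟨b, hb, hgb⟩ c hc
        rw [hBf.mem_toFinset] at hb hgb hc ⊢
        rcases hBb g g.2 with h1 | h1
        · rw [← h1]
          exact ⟨c, hc, rfl⟩
        · exact absurd hgb (Set.disjoint_left.1 h1 ⟨b, hb, rfl⟩)
      · intro b hb
        rw [Set.Finite.mem_toFinset] at hb
        obtain ⟨hb1, n, hn⟩ := hb
        refine ⟨hBf.mem_toFinset.2 hb1, n, ?_⟩
        rw [← hn]
        rfl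
      · rw [← Set.ncard_eq_toFinset_card _ hBf,
          ← Set.ncard_eq_toFinset_card _ (hBf.inter_of_left {b | ∃ n : ℤ, (x ^ n) a = b})]
        exact hxa)
  refine ⟨H.map G.subtype, ?_, a, ?_⟩
  · refine lt_of_le_of_ne (Subgroup.map_subtype_le H) ?_
    intro h
    apply hH
    rw [Subgroup.eq_top_iff']
    intro g
    have h1 : (g : Equiv.Perm Ω) ∈ H.map G.subtype := by rw [h]; exact g.2
    obtain ⟨k, hk, hkg⟩ := Subgroup.mem_map.1 h1
    have h2 : k = g := Subtype.ext hkg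
    rwa [h2] at hk
  · refine ha.mono ?_
    rintro _ ⟨⟨g, hg⟩, rfl⟩
    exact ⟨(g : Equiv.Perm Ω), Subgroup.mem_map.2 ⟨g, hg, rfl⟩, rfl⟩

/-- In a group acting with finite supports, an infinite orbit of a subgroup gives an element of
the subgroup with infinitely many conjugates. -/
theorem not_fc {G Ω : Type*} [Group G] [MulAction G Ω]
    (hfin : ∀ g : G, {a : Ω | g • a ≠ a}.Finite) (H : Subgroup G) (a : Ω)
    (ha : (MulAction.orbit H a).Infinite) :
    ∃ h ∈ H, {b : G | ∃ c ∈ H, b = c * h * c⁻¹}.Infinite := by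
  classical
  -- an element of `H` moving `a`
  obtain ⟨b, hb, hba⟩ : ∃ b ∈ MulAction.orbit H a, b ≠ a := by
    by_contra h1
    push Not at h1
    exact ha ((Set.finite_singleton a).subset h1)
  obtain ⟨⟨h, hh⟩, hhb⟩ := hb
  have hha : h • a ≠ a := by
    intro h1
    exact hba (hhb.symm.trans h1)
  refine ⟨h, hh, fun hcon => ?_⟩
  have h1 : (⋃ k ∈ {b : G | ∃ c ∈ H, b = c * h * c⁻¹}, {a : Ω | k • a ≠ a}).Finite :=
    hcon.biUnion (fun k _ => hfin k)
  apply ha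
  refine h1.subset ?_
  rintro _ ⟨⟨c, hc⟩, rfl⟩
  refine Set.mem_biUnion (x := c * h * c⁻¹) ⟨c, hc, rfl⟩ ?_
  intro h2
  have h3 : (c * h * c⁻¹) • (c • a) = c • a := h2
  rw [mul_smul, inv_smul_smul, mul_smul] at h3
  exact hha (smul_left_cancel c h3)

theorem action_main (p : ℕ) (hp : p.Prime) (G Ω : Type*) [Group G] [MulAction G Ω] [Infinite Ω]
    (hG : ∀ g : G, ∃ n : ℕ, g ^ p ^ n = 1)
    (hfin : ∀ g : G, {a : Ω | g • a ≠ a}.Finite)
    (htr : ∀ a b : Ω, ∃ g : G, g • a = b)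
    (r : ℕ)
    (hr : ∀ F : Set Ω, F.Finite → ∃ B : Set Ω, F ⊆ B ∧ B.Finite ∧
      (∀ g : G, (fun b => g • b) '' B = B ∨ Disjoint ((fun b => g • b) '' B) B) ∧
      ∃ x : G, ∃ a : Ω, B.ncard ≤ r * (B ∩ {b | ∃ n : ℤ, x ^ n • a = b}).ncard) :
    ∃ H : Subgroup G, H ≠ ⊤ ∧ ∃ a : Ω, (MulAction.orbit H a).Infinite := by
  let φ : G →* Equiv.Perm Ω := MulAction.toPermHom G Ω
  have hφ : ∀ (g : G) (a : Ω), φ g a = g • a := fun g a => rfl
  obtain ⟨H, hH, a, ha⟩ := perm_main p hp Ω φ.range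
    (by
      rintro _ ⟨g, rfl⟩
      obtain ⟨n, hn⟩ := hG g
      exact ⟨n, by rw [← map_pow, hn, map_one]⟩)
    (by
      rintro _ ⟨g, rfl⟩
      exact hfin g)
    (by
      intro a b
      obtain ⟨g, hg⟩ := htr a b
      exact ⟨φ g, ⟨g, rfl⟩, hg⟩)
    r
    (by
      intro F hF
      obtain ⟨B, hFB, hBf, hBb, x, a, hxa⟩ := hr F hF
      refine ⟨B, hFB, hBf, ?_, φ x, ⟨x, rfl⟩, a, ?_⟩
      · rintro _ ⟨g, rfl⟩
        exact hBb g
      · have h1 : {b | ∃ n : ℤ, (φ x ^ n) a = b} = {b | ∃ n : ℤ, x ^ n • a = b} := by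
          ext b
          constructor
          · rintro ⟨n, hn⟩
            rw [← map_zpow] at hn
            exact ⟨n, hn⟩
          · rintro ⟨n, hn⟩
            refine ⟨n, ?_⟩
            rw [← map_zpow]
            exact hn
        rw [h1]
        exact hxa)
  refine ⟨H.comap φ, ?_, a, ?_⟩
  · intro h
    apply hH.not_ge
    rintro _ ⟨g, rfl⟩
    have : g ∈ H.comap φ := by rw [h]; trivial
    exact this
  · refine ha.mono ?_
    rintro _ ⟨h, hh, rfl⟩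
    obtain ⟨g, rfl⟩ := hH.le hh
    exact ⟨⟨g, hh⟩, rfl⟩

end Pool.Agent.Helper826.Barely
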